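import Pool.Agent.Lib.MP_debb99_co.Graph

/-! The numerical density bound. -/

namespace Pool.Agent.Lib.MP_debb99_co

open Finset

lemma geom_trunc (f : ℕ → ℕ) (hf : ∀ t, 2 * f t ≤ f (t + 1)) (y k : ℕ) :
    ∑ t ∈ range k, (if f t ≤ y then f t else 0) ≤ 2 * y := by
  have h1 : ∀ k, ∑ t ∈ range k, f t ≤ f k := by
    intro k
    induction k with
    | zero => simp
    | succ k ih =>
      rw [sum_range_succ]
      have := hf k
      omega
  induction k with
  | zero => simp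
  | succ k ih =>
    rw [sum_range_succ]
    split_ifs with h
    · have : ∑ t ∈ range k, (if f t ≤ y then f t else 0) ≤ ∑ t ∈ range k, f t :=
        sum_le_sum fun t _ => by split_ifs <;> simp
      have := h1 k
      omega
    · omega

lemma density_num (k a m d h0 r : ℕ) (l u : ℕ → ℕ) (hk : 0 < k) (hd : 0 < d) (hr : 0 < r)
    (hl : ∀ t, 0 < l t) (hl2 : ∀ t, 2 * l t ≤ l (t + 1)) (ha : a ≤ 4 * (h0 + 1))
    (hm : k * a * d ^ h0 ≤ m) (hu1 : ∀ h, u h ≤ m) (hu2 : ∀ h, u h ≤ 3 * d ^ h) :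
    a * ((2 * r + 1) + (2 * r + 1) + ∑ t ∈ range k, (2 * r / (k * a * l t) + 2) *
        (u (r / (l t + 1)) * (1 + 2 * d * min (l t) r))) ≤ 78 * r * (m * d) := by
  set γ : ℕ → ℕ := fun t => u (r / (l t + 1)) * (1 + 2 * d * min (l t) r) with hγ
  have hγ1 : ∀ t, γ t ≤ 3 * (m * d) * l t := by
    intro t
    have h1 : 1 + 2 * d * min (l t) r ≤ 3 * d * l t := by
      have : 1 ≤ d * l t := Nat.mul_pos hd (hl t)
      have : d * min (l t) r ≤ d * l t := Nat.mul_le_mul_left _ (min_le_left _ _)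
      nlinarith
    calc γ t ≤ m * (3 * d * l t) := Nat.mul_le_mul (hu1 _) h1
      _ = _ := by ring
  have hA : ∀ t, k * (a * ((2 * r / (k * a * l t)) * γ t)) ≤ 6 * r * (m * d) := by
    intro t
    have h1 : (k * a * l t) * (2 * r / (k * a * l t)) ≤ 2 * r := Nat.mul_div_le _ _
    calc k * (a * ((2 * r / (k * a * l t)) * γ t))
        ≤ k * (a * ((2 * r / (k * a * l t)) * (3 * (m * d) * l t))) := by
          gcongr
          exact hγ1 t
      _ = ((k * a * l t) * (2 * r / (k * a * l t))) * (3 * (m * d)) := by ring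
      _ ≤ (2 * r) * (3 * (m * d)) := Nat.mul_le_mul_right _ h1
      _ = _ := by ring
  have hB : ∀ t, k * (a * γ t) ≤ 9 * r * (m * d) +
      k * (3 * (m * d) * (if a * l t ≤ 4 * r then a * l t else 0)) := by
    intro t
    by_cases h : r / (l t + 1) ≤ h0
    · have h1 : 1 + 2 * d * min (l t) r ≤ 3 * d * r := by
        have : 1 ≤ d * r := Nat.mul_pos hd hr
        have : d * min (l t) r ≤ d * r := Nat.mul_le_mul_left _ (min_le_right _ _)
        nlinarith
      have h2 : u (r / (l t + 1)) ≤ 3 * d ^ h0 :=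
        (hu2 _).trans (Nat.mul_le_mul_left _ (Nat.pow_le_pow_right hd h))
      calc k * (a * γ t) ≤ k * (a * ((3 * d ^ h0) * (3 * d * r))) := by
            gcongr
            exact Nat.mul_le_mul h2 h1
        _ = (k * a * d ^ h0) * (9 * d * r) := by ring
        _ ≤ m * (9 * d * r) := Nat.mul_le_mul_right _ hm
        _ = 9 * r * (m * d) := by ring
        _ ≤ _ := Nat.le_add_right _ _
    · have h1 : (h0 + 1) * (l t + 1) ≤ r := by
        rw [← Nat.le_div_iff_mul_le (by omega)]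
        omega
      have h2 : a * l t ≤ 4 * r := by nlinarith
      rw [if_pos h2]
      calc k * (a * γ t) ≤ k * (a * (3 * (m * d) * l t)) := by
            gcongr
            exact hγ1 t
        _ = k * (3 * (m * d) * (a * l t)) := by ring
        _ ≤ _ := Nat.le_add_left _ _
  have hG := geom_trunc (fun t => a * l t) (fun t => by
    have := hl2 t
    nlinarith) (4 * r) k
  have hS : k * (a * ∑ t ∈ range k, (2 * r / (k * a * l t) + 2) * γ t) ≤
      k * (72 * r * (m * d)) := by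
    calc k * (a * ∑ t ∈ range k, (2 * r / (k * a * l t) + 2) * γ t)
        = ∑ t ∈ range k, (k * (a * ((2 * r / (k * a * l t)) * γ t)) + 2 * (k * (a * γ t))) := by
          rw [mul_sum, mul_sum]
          exact sum_congr rfl fun t _ => by ring
      _ ≤ ∑ t ∈ range k, (6 * r * (m * d) + 2 * (9 * r * (m * d) +
          k * (3 * (m * d) * (if a * l t ≤ 4 * r then a * l t else 0)))) :=
          sum_le_sum fun t _ => Nat.add_le_add (hA t) (Nat.mul_le_mul_left _ (hB t))
      _ = k * (24 * r * (m * d)) +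
          6 * k * (m * d) * ∑ t ∈ range k, (if a * l t ≤ 4 * r then a * l t else 0) := by
          have : k * (24 * r * (m * d)) = ∑ t ∈ range k, 24 * r * (m * d) := by simp
          rw [this, mul_sum, ← sum_add_distrib]
          exact sum_congr rfl fun t _ => by ring
      _ ≤ k * (24 * r * (m * d)) + 6 * k * (m * d) * (2 * (4 * r)) := by gcongr
      _ = _ := by ring
  have hS' := Nat.le_of_mul_le_mul_left hS hk
  have ham : a ≤ m * d := by
    have : 1 ≤ d ^ h0 := pow_pos hd _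
    calc a = 1 * a * 1 := by ring
      _ ≤ k * a * d ^ h0 := by gcongr; exact hk
      _ ≤ m * 1 := by omega
      _ ≤ m * d := Nat.mul_le_mul_left _ hd
  have : a * ((2 * r + 1) + (2 * r + 1)) ≤ (m * d) * (6 * r) := Nat.mul_le_mul ham (by omega)
  rw [mul_add]
  simp only [hγ] at hS'
  nlinarith

variable {X Gn : Type} [Fintype X] [Fintype Gn] [DecidableEq X]

/-- Every ball of the construction is small. -/
theorem Par.ball_bound (P : Par X Gn) (hinv : ∀ x g, P.nb (P.nb x g) g = x) (g0 : Gn)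
    (hg : ∀ x, P.nb x g0 = x) (a h0 : ℕ) (ha0 : 0 < a) (hk : 0 < P.k) (hl : ∀ t, 0 < P.l t)
    (hl2 : ∀ t, 2 * P.l t ≤ P.l (t + 1)) (hs : ∀ t, P.s t = P.k * a * P.l t)
    (ha : a ≤ 4 * (h0 + 1)) (hm : P.k * a * Fintype.card Gn ^ h0 ≤ Fintype.card X)
    (v : Vt X Gn) :
    ∃ Q : ℕ → Vt X Gn → Prop, Q 0 v ∧ (∀ r w, Q r w → Q (r + 1) w) ∧
      (∀ r w w', P.rel w w' ∨ P.rel w' w → Q r w → Q (r + 1) w') ∧
      ∀ r, 0 < r → ∃ B : Finset (Vt X Gn), (∀ w, P.ok w → Q r w → w ∈ B) ∧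
        a * B.card ≤ 78 * r * (Fintype.card X * Fintype.card Gn) := by
  have key : ∀ (p t0 j0 : ℕ) (x1 : X) (g1 : Gn) (i0 : ℕ),
      P.T' (P.hop {P.x0, x1, P.nb x1 g1}) p t0 j0 x1 g1 i0 0 v →
      ∃ Q : ℕ → Vt X Gn → Prop, Q 0 v ∧ (∀ r w, Q r w → Q (r + 1) w) ∧
      (∀ r w w', P.rel w w' ∨ P.rel w' w → Q r w → Q (r + 1) w') ∧
      ∀ r, 0 < r → ∃ B : Finset (Vt X Gn), (∀ w, P.ok w → Q r w → w ∈ B) ∧
        a * B.card ≤ 78 * r * (Fintype.card X * Fintype.card Gn) := by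
    intro p t0 j0 x1 g1 i0 h
    refine ⟨P.T' (P.hop {P.x0, x1, P.nb x1 g1}) p t0 j0 x1 g1 i0, h,
      fun r w hw => P.T'_mono _ _ _ _ _ _ _ hw,
      fun r w w' hw hQ => P.T'_step _ _ hinv (P.hop_step _) (by simp [Par.hop]) _ _ _ _ _
        (by simp [Par.hop]) (by simp [Par.hop]) hw hQ, fun r hr => ?_⟩
    refine ⟨P.ball (P.hop {P.x0, x1, P.nb x1 g1}) p t0 j0 x1 g1 i0 r, fun w hw hQ =>
      P.mem_ball hinv (fun t => by rw [hs]; exact Nat.mul_pos (Nat.mul_pos hk ha0) (hl t)) _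
        (fun h h' hh => P.hop_mono g0 hg _ hh) _ _ _ _ _ _ _ _ hw hQ, ?_⟩
    refine (Nat.mul_le_mul_left _ (P.ball_card _ _ _ _ _ _ _ _)).trans ?_
    simp only [hs]
    refine density_num P.k a _ _ h0 r P.l (fun h => (P.hop {P.x0, x1, P.nb x1 g1} h).card) hk
      (Fintype.card_pos_iff.2 ⟨g0⟩) hr hl hl2 ha hm (fun h => card_le_univ _) fun h => ?_
    exact (P.hop_card _ h).trans (Nat.mul_le_mul_right _ card_le_three)
  cases v with
  | sp q => exact key q 0 0 P.x0 g0 0 (Or.inl (by simp [Par.T]))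
  | br t j x => exact key (j * P.s t) 0 0 x g0 0 (Or.inl ⟨0, by simp [Par.hop], by simp⟩)
  | it t j x g i => exact key (j * P.s t) t j x g i (Or.inr ⟨rfl, i, rfl, by simp⟩)

end Pool.Agent.Lib.MP_debb99_co
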