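import Mathlib

/-! The bilinear forms graph over the field with two elements is an edge expander. -/

namespace Pool.Agent.Lib.MP_debb99_co

open Finset

/-- The sign character of the field with two elements. -/
def sg (z : ZMod 2) : ℝ := if z = 0 then 1 else -1

lemma sg_add (z w : ZMod 2) : sg (z + w) = sg z * sg w := by
  revert z w
  have : ∀ z w : ZMod 2, (z + w = 0 ↔ (z = 0 ↔ w = 0)) := by decide
  intro z w
  unfold sg
  by_cases hz : z = 0 <;> by_cases hw : w = 0 <;> simp [hz, hw, this]

lemma sg_zero : sg 0 = 1 := by simp [sg]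

lemma sum_sg {G : Type} [AddCommGroup G] [Fintype G] (φ : G → ZMod 2)
    (hφ : ∀ x y, φ (x + y) = φ x + φ y) (x0 : G) (h : φ x0 ≠ 0) : ∑ x, sg (φ x) = 0 := by
  have h1 : ∑ x, sg (φ x) = ∑ x, sg (φ (x + x0)) :=
    (Equiv.sum_comp (Equiv.addRight x0) (fun x => sg (φ x))).symm
  have h2 : ∑ x, sg (φ (x + x0)) = - ∑ x, sg (φ x) := by
    rw [← Finset.sum_neg_distrib]
    refine Finset.sum_congr rfl fun x _ => ?_
    rw [hφ, sg_add]
    simp [sg, h]
  linarith

abbrev Vec (a : ℕ) := Fin a → ZMod 2
abbrev Mat (a : ℕ) := Fin a → Fin a → ZMod 2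

def pr {a : ℕ} (α x : Mat a) : ZMod 2 := ∑ i, ∑ j, α i j * x i j

def r1 {a : ℕ} (g : Vec a × Vec a) : Mat a := fun i j => g.1 i * g.2 j

lemma pr_add_right {a : ℕ} (α x y : Mat a) : pr α (x + y) = pr α x + pr α y := by
  simp [pr, mul_add, Finset.sum_add_distrib]

lemma pr_add_left {a : ℕ} (α β x : Mat a) : pr (α + β) x = pr α x + pr β x := by
  simp [pr, add_mul, Finset.sum_add_distrib]

lemma exists_entry {a : ℕ} {x : Mat a} (hx : x ≠ 0) : ∃ i j, x i j ≠ 0 := by
  by_contra h
  push Not at h
  apply hx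
  funext i j
  exact h i j

lemma orth {a : ℕ} (x : Mat a) :
    ∑ α : Mat a, sg (pr α x) = if x = 0 then (Fintype.card (Mat a) : ℝ) else 0 := by
  split_ifs with hx
  · simp [hx, pr, sg_zero]
  · obtain ⟨i, j, hij⟩ := exists_entry hx
    refine sum_sg (fun α => pr α x) (fun α β => pr_add_left α β x)
      (Pi.single i (Pi.single j 1)) ?_
    have : pr (Pi.single i (Pi.single j 1) : Mat a) x = x i j := by
      unfold pr
      rw [Finset.sum_eq_single i]
      · rw [Finset.sum_eq_single j]
        · simp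
        · intro b _ hb
          simp [hb]
        · simp
      · intro b _ hb
        simp [hb]
      · simp
    rwa [this]

lemma lam_le {a : ℕ} (α : Mat a) (hα : α ≠ 0) :
    ∑ g : Vec a × Vec a, sg (pr α (r1 g)) ≤ (Fintype.card (Vec a × Vec a) : ℝ) / 2 := by
  obtain ⟨i0, j0, h0⟩ := exists_entry hα
  have hpr : ∀ u v : Vec a, pr α (r1 (u, v)) = ∑ i, u i * ∑ j, α i j * v j := by
    intro u v
    unfold pr r1
    refine Finset.sum_congr rfl fun i _ => ?_
    rw [Finset.mul_sum]
    refine Finset.sum_congr rfl fun j _ => ?_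
    ring
  have hv : ∀ v : Vec a, ∑ u : Vec a, sg (pr α (r1 (u, v))) ≤
      (Fintype.card (Vec a) : ℝ) * ((1 + sg (∑ j, α i0 j * v j)) / 2) := by
    intro v
    by_cases h : ∑ j, α i0 j * v j = 0
    · rw [h, sg_zero]
      have : ∑ u : Vec a, sg (pr α (r1 (u, v))) ≤ ∑ u : Vec a, (1 : ℝ) := by
        refine Finset.sum_le_sum fun u _ => ?_
        unfold sg
        split_ifs <;> norm_num
      simpa using this
    · have : ∑ u : Vec a, sg (pr α (r1 (u, v))) = 0 := by
        refine sum_sg (fun u => pr α (r1 (u, v))) (fun x y => ?_) (Pi.single i0 1) ?_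
        · simp [hpr, add_mul, Finset.sum_add_distrib]
        · rw [hpr, Finset.sum_eq_single i0]
          · simpa using h
          · intro b _ hb
            simp [hb]
          · simp
      rw [this]
      simp [sg, h]
  have hs : ∑ v : Vec a, sg (∑ j, α i0 j * v j) = 0 := by
    refine sum_sg (fun v : Vec a => ∑ j, α i0 j * v j) (fun x y => ?_) (Pi.single j0 1) ?_
    · simp [mul_add, Finset.sum_add_distrib]
    · rw [Finset.sum_eq_single j0]
      · simpa using h0
      · intro b _ hb
        simp [hb]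
      · simp
  rw [Fintype.sum_prod_type_right]
  refine (Finset.sum_le_sum fun v _ => hv v).trans (le_of_eq ?_)
  rw [← Finset.mul_sum, ← Finset.sum_div, Finset.sum_add_distrib, hs, Fintype.card_prod]
  simp
  ring

lemma add_self_mat {a : ℕ} (x : Mat a) : x + x = 0 := by
  funext i j
  have : ∀ z : ZMod 2, z + z = 0 := by decide
  exact this _

lemma parseval {a : ℕ} (f : Mat a → ℝ) (z : Mat a) :
    ∑ α : Mat a, sg (pr α z) * (∑ x, f x * sg (pr α x)) ^ 2 =
      (Fintype.card (Mat a) : ℝ) * ∑ x, f x * f (x + z) := by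
  have h1 : ∀ α : Mat a, sg (pr α z) * (∑ x, f x * sg (pr α x)) ^ 2 =
      ∑ x, ∑ y, f x * f y * sg (pr α (x + z + y)) := by
    intro α
    rw [sq, Finset.sum_mul_sum, Finset.mul_sum]
    refine Finset.sum_congr rfl fun x _ => ?_
    rw [Finset.mul_sum]
    refine Finset.sum_congr rfl fun y _ => ?_
    rw [pr_add_right, pr_add_right, sg_add, sg_add]
    ring
  simp_rw [h1]
  rw [Finset.sum_comm, Finset.mul_sum]
  refine Finset.sum_congr rfl fun x _ => ?_
  rw [Finset.sum_comm]
  simp_rw [← Finset.mul_sum, orth]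
  rw [Finset.sum_eq_single (x + z)]
  · rw [if_pos (add_self_mat _)]
    ring
  · intro y _ hy
    rw [if_neg, mul_zero]
    intro h
    apply hy
    have := add_self_mat (x + z)
    rw [← this] at h
    exact add_left_cancel h
  · simp

theorem expansion {a : ℕ} (A : Finset (Mat a)) :
    (Fintype.card (Vec a × Vec a) : ℝ) * A.card * (Fintype.card (Mat a) - A.card) ≤
      2 * Fintype.card (Mat a) *
        ((univ.filter fun p : Mat a × (Vec a × Vec a) => p.1 ∈ A ∧ p.1 + r1 p.2 ∉ A).card : ℝ) := by
  classical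
  set m : ℝ := (Fintype.card (Mat a) : ℝ) with hm
  set d : ℝ := (Fintype.card (Vec a × Vec a) : ℝ) with hd
  let f : Mat a → ℝ := fun x => if x ∈ A then 1 else 0
  let F : Mat a → ℝ := fun α => ∑ x, f x * sg (pr α x)
  have hA : ∑ x, f x = A.card := by simp [f]
  have hF0 : F 0 = A.card := by simp [F, pr, sg_zero, hA]
  have hP : ∑ α, F α ^ 2 = m * A.card := by
    have := parseval f 0
    simp only [add_zero] at this
    have h2 : ∑ x, f x * f x = A.card := by
      rw [← hA]
      refine Finset.sum_congr rfl fun x _ => ?_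
      simp only [f]
      split_ifs <;> simp
    rw [h2] at this
    rw [← this]
    refine Finset.sum_congr rfl fun α _ => ?_
    simp [pr, sg_zero, F]
  have hcut : ((univ.filter fun p : Mat a × (Vec a × Vec a) => p.1 ∈ A ∧ p.1 + r1 p.2 ∉ A).card : ℝ)
      = d * A.card - ∑ g : Vec a × Vec a, ∑ x, f x * f (x + r1 g) := by
    have : d * A.card = ∑ g : Vec a × Vec a, ∑ x, f x := by simp [hA, hd]
    rw [this, ← Finset.sum_sub_distrib, Finset.card_filter, Nat.cast_sum,
      Fintype.sum_prod_type_right]
    refine Finset.sum_congr rfl fun g _ => ?_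
    rw [← Finset.sum_sub_distrib]
    refine Finset.sum_congr rfl fun x _ => ?_
    simp only [f]
    by_cases h1 : x ∈ A <;> by_cases h2 : x + r1 g ∈ A <;> simp [h1, h2]
  have hin : m * ∑ g : Vec a × Vec a, ∑ x, f x * f (x + r1 g) =
      ∑ α, (∑ g : Vec a × Vec a, sg (pr α (r1 g))) * F α ^ 2 := by
    rw [Finset.mul_sum]
    simp_rw [hm, ← parseval f]
    rw [Finset.sum_comm]
    refine Finset.sum_congr rfl fun α _ => ?_
    rw [Finset.sum_mul]
  have hle : ∑ α, (∑ g : Vec a × Vec a, sg (pr α (r1 g))) * F α ^ 2 ≤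
      ∑ α : Mat a, (d / 2 * F α ^ 2 + if α = 0 then d / 2 * F 0 ^ 2 else 0) := by
    refine Finset.sum_le_sum fun α _ => ?_
    by_cases h : α = 0
    · subst h
      simp [pr, sg_zero, hd]
      linarith
    · rw [if_neg h, add_zero]
      exact mul_le_mul_of_nonneg_right (lam_le α h) (sq_nonneg _)
  rw [Finset.sum_add_distrib, ← Finset.mul_sum, hP, Finset.sum_ite_eq', if_pos (mem_univ _),
    hF0, ← hin] at hle
  rw [hcut]
  nlinarith

theorem reach {a : ℕ} (P : ℕ → Mat a → Prop) (h0 : P 0 0)
    (hs : ∀ i x g, P i x → P (i + 1) (x + r1 g)) (x : Mat a) : P a x := by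
  have key : ∀ n, n ≤ a → P n (fun i j => if i.val < n then x i j else 0) := by
    intro n
    induction n with
    | zero =>
      intro _
      have : (fun (i : Fin a) (j : Fin a) => if i.val < 0 then x i j else 0) = (0 : Mat a) := by
        funext i j
        simp
      rw [this]
      exact h0
    | succ n ih =>
      intro hn
      have := hs n _ (Pi.single ⟨n, hn⟩ 1, x ⟨n, hn⟩) (ih (by omega))
      have he : (fun (i : Fin a) (j : Fin a) => if i.val < n + 1 then x i j else 0) =
          ((fun (i : Fin a) (j : Fin a) => if i.val < n then x i j else 0) : Mat a) +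
            r1 (Pi.single ⟨n, hn⟩ 1, x ⟨n, hn⟩) := by
        funext i j
        simp only [Pi.add_apply, r1]
        by_cases h : i = ⟨n, hn⟩
        · subst h
          simp
        · have h' : i.val ≠ n := fun e => h (Fin.ext e)
          rw [Pi.single_eq_of_ne h]
          by_cases h2 : i.val < n
          · rw [if_pos h2, if_pos (by omega)]
            simp
          · rw [if_neg h2, if_neg (by omega)]
            simp
      rw [he]
      exact this
  have := key a le_rfl
  have he : (fun (i : Fin a) (j : Fin a) => if i.val < a then x i j else 0) = x := by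
    funext i j
    simp
  rwa [he] at this

lemma card_mat (a : ℕ) : Fintype.card (Mat a) = 2 ^ (a * a) := by
  simp [pow_mul]

lemma card_gen (a : ℕ) : Fintype.card (Vec a × Vec a) = 2 ^ (2 * a) := by
  simp [two_mul, pow_add]

lemma r1_zero (a : ℕ) : r1 ((0, 0) : Vec a × Vec a) = 0 := by
  funext i j
  simp [r1]

end Pool.Agent.Lib.MP_debb99_co
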