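import Mathlib

/-! A spine with subdivided expanders attached at many scales: definitions and ball sizes. -/

namespace Pool.Agent.Lib.MP_debb99_co

open Finset

/-- Vertices: spine points, branch vertices and interior vertices of the gadgets. -/
inductive Vt (X Gn : Type) where
  | sp (q : ℕ) : Vt X Gn
  | br (t j : ℕ) (x : X) : Vt X Gn
  | it (t j : ℕ) (x : X) (g : Gn) (i : ℕ) : Vt X Gn

/-- Parameters of the construction. -/
structure Par (X Gn : Type) where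
  nb : X → Gn → X
  x0 : X
  k : ℕ
  N : ℕ
  l : ℕ → ℕ
  s : ℕ → ℕ

variable {X Gn : Type}

def Par.J (P : Par X Gn) (t j : ℕ) : Prop := t < P.k ∧ j * P.s t < P.N

def Par.pt (P : Par X Gn) (t j : ℕ) (x : X) (g : Gn) (i : ℕ) : Vt X Gn :=
  if i = 0 then .br t j x else if i ≤ P.l t then .it t j x g i else .br t j (P.nb x g)

def Par.rel (P : Par X Gn) (u v : Vt X Gn) : Prop :=
  (∃ q, q + 1 < P.N ∧ u = .sp q ∧ v = .sp (q + 1)) ∨
  (∃ t j, P.J t j ∧ u = .sp (j * P.s t) ∧ v = .br t j P.x0) ∨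
  (∃ t j x g i, P.J t j ∧ i ≤ P.l t ∧ u = P.pt t j x g i ∧ v = P.pt t j x g (i + 1))

def Par.ok (P : Par X Gn) : Vt X Gn → Prop
  | .sp q => q < P.N
  | .br t j _ => P.J t j
  | .it t j _ _ i => P.J t j ∧ 1 ≤ i ∧ i ≤ P.l t

lemma Par.ok_pt (P : Par X Gn) {t j : ℕ} (h : P.J t j) (x : X) (g : Gn) (i : ℕ) :
    P.ok (P.pt t j x g i) := by
  unfold Par.pt
  split_ifs with h1 h2
  · exact h
  · exact ⟨h, by omega, h2⟩
  · exact h

lemma Par.ok_of_rel (P : Par X Gn) {u v : Vt X Gn} (h : P.rel u v) : P.ok u ∧ P.ok v := by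
  rcases h with ⟨q, hq, rfl, rfl⟩ | ⟨t, j, hJ, rfl, rfl⟩ | ⟨t, j, x, g, i, hJ, hi, rfl, rfl⟩
  · exact ⟨by show q < P.N; omega, hq⟩
  · exact ⟨hJ.2, hJ⟩
  · exact ⟨P.ok_pt hJ _ _ _, P.ok_pt hJ _ _ _⟩

section ball

variable (P : Par X Gn) (U : ℕ → Finset X) (p : ℕ)

/-- A superset of the ball. -/
def Par.T (r : ℕ) : Vt X Gn → Prop
  | .sp q => Nat.dist q p ≤ r
  | .br t j x => ∃ h, x ∈ U h ∧ Nat.dist (j * P.s t) p + h * (P.l t + 1) ≤ r
  | .it t j x g i => ∃ h, (x ∈ U h ∧ Nat.dist (j * P.s t) p + h * (P.l t + 1) + i ≤ r) ∨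
      (P.nb x g ∈ U h ∧ Nat.dist (j * P.s t) p + h * (P.l t + 1) + (P.l t + 1 - i) ≤ r)

lemma Par.T_pt (hinv : ∀ x g, P.nb (P.nb x g) g = x)
    (hU : ∀ h x g, x ∈ U h → P.nb x g ∈ U (h + 1)) (r t j : ℕ) (x : X) (g : Gn) (i : ℕ)
    (hi : i ≤ P.l t + 1) :
    P.T U p r (P.pt t j x g i) ↔
      ∃ h, (x ∈ U h ∧ Nat.dist (j * P.s t) p + h * (P.l t + 1) + i ≤ r) ∨
        (P.nb x g ∈ U h ∧ Nat.dist (j * P.s t) p + h * (P.l t + 1) + (P.l t + 1 - i) ≤ r) := by
  unfold Par.pt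
  split_ifs with h1 h2
  · subst h1
    constructor
    · rintro ⟨h, hx, hr⟩
      exact ⟨h, Or.inl ⟨hx, by omega⟩⟩
    · rintro ⟨h, ⟨hx, hr⟩ | ⟨hx, hr⟩⟩
      · exact ⟨h, hx, by omega⟩
      · refine ⟨h + 1, ?_, ?_⟩
        · have := hU h _ g hx
          rwa [hinv] at this
        · rw [add_mul]
          omega
  · rfl
  · have hi' : i = P.l t + 1 := by omega
    subst hi'
    constructor
    · rintro ⟨h, hx, hr⟩
      exact ⟨h, Or.inr ⟨hx, by omega⟩⟩
    · rintro ⟨h, ⟨hx, hr⟩ | ⟨hx, hr⟩⟩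
      · refine ⟨h + 1, hU h _ g hx, ?_⟩
        rw [add_mul]
        omega
      · exact ⟨h, hx, by omega⟩

lemma Par.T_mono {r : ℕ} {w : Vt X Gn} (h : P.T U p r w) : P.T U p (r + 1) w := by
  cases w with
  | sp q => exact Nat.le_succ_of_le h
  | br t j x =>
    obtain ⟨h, hx, hr⟩ := h
    exact ⟨h, hx, by omega⟩
  | it t j x g i =>
    obtain ⟨h, ⟨hx, hr⟩ | ⟨hx, hr⟩⟩ := h
    · exact ⟨h, Or.inl ⟨hx, by omega⟩⟩
    · exact ⟨h, Or.inr ⟨hx, by omega⟩⟩

lemma Par.T_step (hinv : ∀ x g, P.nb (P.nb x g) g = x)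
    (hU : ∀ h x g, x ∈ U h → P.nb x g ∈ U (h + 1)) (h0 : P.x0 ∈ U 0) {r : ℕ} {u v : Vt X Gn}
    (huv : P.rel u v) :
    (P.T U p r u → P.T U p (r + 1) v) ∧ (P.T U p r v → P.T U p (r + 1) u) := by
  rcases huv with ⟨q, hq, rfl, rfl⟩ | ⟨t, j, hJ, rfl, rfl⟩ | ⟨t, j, x, g, i, hJ, hi, rfl, rfl⟩
  · simp only [Par.T, Nat.dist]
    omega
  · constructor
    · intro h
      refine ⟨0, h0, ?_⟩
      simp only [Par.T] at h
      omega
    · rintro ⟨h, hx, hr⟩
      simp only [Par.T]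
      omega
  · rw [P.T_pt U p hinv hU _ _ _ _ _ _ (by omega), P.T_pt U p hinv hU _ _ _ _ _ _ (by omega),
      P.T_pt U p hinv hU _ _ _ _ _ _ (by omega), P.T_pt U p hinv hU _ _ _ _ _ _ (by omega)]
    constructor
    · rintro ⟨h, ⟨hx, hr⟩ | ⟨hx, hr⟩⟩
      · exact ⟨h, Or.inl ⟨hx, by omega⟩⟩
      · exact ⟨h, Or.inr ⟨hx, by omega⟩⟩
    · rintro ⟨h, ⟨hx, hr⟩ | ⟨hx, hr⟩⟩
      · exact ⟨h, Or.inl ⟨hx, by omega⟩⟩
      · exact ⟨h, Or.inr ⟨hx, by omega⟩⟩

/-- The superset together with the own path. -/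
def Par.T' (t0 j0 : ℕ) (x1 : X) (g1 : Gn) (i0 r : ℕ) (w : Vt X Gn) : Prop :=
  P.T U p r w ∨ (p = j0 * P.s t0 ∧ ∃ i, w = .it t0 j0 x1 g1 i ∧ Nat.dist i i0 ≤ r)

lemma Par.T'_step (hinv : ∀ x g, P.nb (P.nb x g) g = x)
    (hU : ∀ h x g, x ∈ U h → P.nb x g ∈ U (h + 1)) (h0 : P.x0 ∈ U 0)
    (t0 j0 : ℕ) (x1 : X) (g1 : Gn) (i0 : ℕ) (h1 : x1 ∈ U 0) (h2 : P.nb x1 g1 ∈ U 0)
    {r : ℕ} {u v : Vt X Gn} (huv : P.rel u v ∨ P.rel v u)
    (h : P.T' U p t0 j0 x1 g1 i0 r u) : P.T' U p t0 j0 x1 g1 i0 (r + 1) v := by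
  rcases h with h | ⟨hp, i, rfl, hi⟩
  · left
    rcases huv with huv | huv
    · exact (P.T_step U p hinv hU h0 huv).1 h
    · exact (P.T_step U p hinv hU h0 huv).2 h
  · have key : ∀ t j x g i' i'', P.pt t j x g i' = .it t0 j0 x1 g1 i → Nat.dist i' i'' ≤ 1 →
        P.T' U p t0 j0 x1 g1 i0 (r + 1) (P.pt t j x g i'') := by
      intro t j x g i' i'' he hd
      have : t = t0 ∧ j = j0 ∧ x = x1 ∧ g = g1 ∧ i' = i := by
        unfold Par.pt at he
        split_ifs at he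
        · simpa using he
      obtain ⟨rfl, rfl, rfl, rfl, rfl⟩ := this
      unfold Par.pt
      split_ifs
      · left
        exact ⟨0, h1, by simp [hp]⟩
      · right
        refine ⟨hp, _, rfl, ?_⟩
        simp only [Nat.dist] at *
        omega
      · left
        exact ⟨0, h2, by simp [hp]⟩
    rcases huv with huv | huv
    · rcases huv with ⟨q, hq, he, rfl⟩ | ⟨t, j, hJ, he, rfl⟩ | ⟨t, j, x, g, i', hJ, hi, he, rfl⟩
      · cases he
      · cases he
      · exact key _ _ _ _ _ _ he.symm (by simp [Nat.dist])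
    · rcases huv with ⟨q, hq, rfl, he⟩ | ⟨t, j, hJ, rfl, he⟩ | ⟨t, j, x, g, i', hJ, hi, rfl, he⟩
      · cases he
      · cases he
      · exact key _ _ _ _ _ _ he.symm (by simp [Nat.dist])

lemma Par.T'_mono (t0 j0 : ℕ) (x1 : X) (g1 : Gn) (i0 : ℕ) {r : ℕ} {w : Vt X Gn}
    (h : P.T' U p t0 j0 x1 g1 i0 r w) : P.T' U p t0 j0 x1 g1 i0 (r + 1) w := by
  rcases h with h | ⟨hp, i, rfl, hi⟩
  · exact Or.inl (P.T_mono U p h)
  · exact Or.inr ⟨hp, i, rfl, by omega⟩

end ball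

section count

variable [Fintype X] [Fintype Gn] [DecidableEq X] [DecidableEq Gn]

/-- Hop neighbourhoods in the expander. -/
def Par.hop (P : Par X Gn) (U0 : Finset X) : ℕ → Finset X
  | 0 => U0
  | h + 1 => ((P.hop U0 h) ×ˢ (univ : Finset Gn)).image fun y => P.nb y.1 y.2

omit [Fintype X] [DecidableEq Gn] in
lemma Par.hop_step (P : Par X Gn) (U0 : Finset X) (h : ℕ) (x : X) (g : Gn)
    (hx : x ∈ P.hop U0 h) : P.nb x g ∈ P.hop U0 (h + 1) :=
  mem_image.2 ⟨(x, g), by simp [hx], rfl⟩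

omit [Fintype X] [DecidableEq Gn] in
lemma Par.hop_card (P : Par X Gn) (U0 : Finset X) (h : ℕ) :
    (P.hop U0 h).card ≤ U0.card * Fintype.card Gn ^ h := by
  induction h with
  | zero => simp [Par.hop]
  | succ h ih =>
    refine card_image_le.trans ?_
    rw [card_product, card_univ, pow_succ, ← mul_assoc]
    exact Nat.mul_le_mul_right _ ih

omit [Fintype X] [DecidableEq Gn] in
lemma Par.hop_mono (P : Par X Gn) (g0 : Gn) (hg : ∀ x, P.nb x g0 = x) (U0 : Finset X)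
    {h h' : ℕ} (hh : h ≤ h') : P.hop U0 h ⊆ P.hop U0 h' := by
  induction hh with
  | refl => exact Subset.rfl
  | step _ ih =>
    intro x hx
    have := P.hop_step U0 _ x g0 (ih hx)
    rwa [hg] at this

open Classical in
/-- The part of one gadget that can meet the ball. -/
noncomputable def Par.gad (P : Par X Gn) (W : Finset X) (c t j : ℕ) : Finset (Vt X Gn) :=
  W.image (Vt.br t j) ∪
    ((W ×ˢ (univ : Finset Gn) ×ˢ Icc 1 c).image fun y => Vt.it t j y.1 y.2.1 y.2.2) ∪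
    ((W ×ˢ (univ : Finset Gn) ×ˢ Icc 1 c).image
      fun y => Vt.it t j (P.nb y.1 y.2.1) y.2.1 (P.l t + 1 - y.2.2))

omit [Fintype X] [DecidableEq X] [DecidableEq Gn] in
lemma Par.gad_card (P : Par X Gn) (W : Finset X) (c t j : ℕ) :
    (P.gad W c t j).card ≤ W.card * (1 + 2 * Fintype.card Gn * c) := by
  classical
  unfold Par.gad
  refine (card_union_le _ _).trans ?_
  refine (Nat.add_le_add (card_union_le _ _) card_image_le).trans ?_
  refine (Nat.add_le_add_right (Nat.add_le_add card_image_le card_image_le) _).trans ?_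
  simp only [card_product, card_univ, Nat.card_Icc]
  apply le_of_eq
  simp only [add_tsub_cancel_right]
  ring

open Classical in
/-- A finite superset of the ball. -/
noncomputable def Par.ball (P : Par X Gn) (U : ℕ → Finset X) (p t0 j0 : ℕ) (x1 : X) (g1 : Gn)
    (i0 r : ℕ) : Finset (Vt X Gn) :=
  (Icc (p - r) (p + r)).image Vt.sp ∪ (Icc (i0 - r) (i0 + r)).image (Vt.it t0 j0 x1 g1) ∪
    (range P.k).biUnion fun t =>
      (Icc ((p - r) / P.s t) ((p - r) / P.s t + 2 * r / P.s t + 1)).biUnion fun j =>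
        P.gad (U (r / (P.l t + 1))) (min (P.l t) r) t j

omit [Fintype X] [DecidableEq X] [DecidableEq Gn] in
lemma Par.mem_ball (P : Par X Gn) (hinv : ∀ x g, P.nb (P.nb x g) g = x) (hs : ∀ t, 0 < P.s t)
    (U : ℕ → Finset X) (hU : ∀ h h', h ≤ h' → U h ⊆ U h') (p t0 j0 : ℕ) (x1 : X) (g1 : Gn)
    (i0 r : ℕ) (w : Vt X Gn) (hw : P.ok w) (h : P.T' U p t0 j0 x1 g1 i0 r w) :
    w ∈ P.ball U p t0 j0 x1 g1 i0 r := by
  classical
  unfold Par.ball
  have hj : ∀ t j, Nat.dist (j * P.s t) p ≤ r →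
      j ∈ Icc ((p - r) / P.s t) ((p - r) / P.s t + 2 * r / P.s t + 1) := by
    intro t j hd
    simp only [Nat.dist] at hd
    rw [mem_Icc]
    constructor
    · apply Nat.div_le_of_le_mul
      rw [mul_comm]
      omega
    · refine le_trans ?_ (Nat.add_div_le_div_add_div_add_one (p - r) (2 * r) (P.s t))
      rw [Nat.le_div_iff_mul_le (hs t)]
      omega
  have hh : ∀ t h, h * (P.l t + 1) ≤ r → U h ⊆ U (r / (P.l t + 1)) := by
    intro t h hr
    apply hU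
    rwa [Nat.le_div_iff_mul_le (by omega)]
  rcases h with h | ⟨hp, i, rfl, hi⟩
  · cases w with
    | sp q =>
      simp only [Par.T, Nat.dist] at h
      refine mem_union_left _ (mem_union_left _ (mem_image_of_mem _ ?_))
      rw [mem_Icc]
      omega
    | br t j x =>
      obtain ⟨h, hx, hr⟩ := h
      refine mem_union_right _ (mem_biUnion.2 ⟨t, mem_range.2 hw.1, mem_biUnion.2
        ⟨j, hj t j (by omega), ?_⟩⟩)
      exact mem_union_left _ (mem_union_left _ (mem_image_of_mem _ (hh t h (by omega) hx)))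
    | it t j x g i =>
      obtain ⟨hJ, hi1, hi2⟩ := hw
      obtain ⟨h, ⟨hx, hr⟩ | ⟨hx, hr⟩⟩ := h
      · refine mem_union_right _ (mem_biUnion.2 ⟨t, mem_range.2 hJ.1, mem_biUnion.2
          ⟨j, hj t j (by omega), ?_⟩⟩)
        refine mem_union_left _ (mem_union_right _ (mem_image.2 ⟨(x, g, i), ?_, rfl⟩))
        simp only [mem_product, mem_univ, mem_Icc, true_and]
        exact ⟨hh t h (by omega) hx, hi1, by omega⟩
      · refine mem_union_right _ (mem_biUnion.2 ⟨t, mem_range.2 hJ.1, mem_biUnion.2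
          ⟨j, hj t j (by omega), ?_⟩⟩)
        refine mem_union_right _ (mem_image.2 ⟨(P.nb x g, g, P.l t + 1 - i), ?_, ?_⟩)
        · simp only [mem_product, mem_univ, mem_Icc, true_and]
          exact ⟨hh t h (by omega) hx, by omega, by omega⟩
        · simp only [hinv]
          congr 1
          omega
  · simp only [Nat.dist] at hi
    refine mem_union_left _ (mem_union_right _ (mem_image_of_mem _ ?_))
    rw [mem_Icc]
    omega

omit [Fintype X] [DecidableEq X] [DecidableEq Gn] in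
lemma Par.ball_card (P : Par X Gn) (U : ℕ → Finset X) (p t0 j0 : ℕ) (x1 : X) (g1 : Gn)
    (i0 r : ℕ) :
    (P.ball U p t0 j0 x1 g1 i0 r).card ≤ (2 * r + 1) + (2 * r + 1) +
      ∑ t ∈ range P.k, (2 * r / P.s t + 2) *
        ((U (r / (P.l t + 1))).card * (1 + 2 * Fintype.card Gn * min (P.l t) r)) := by
  classical
  unfold Par.ball
  refine (card_union_le _ _).trans (Nat.add_le_add ((card_union_le _ _).trans
    (Nat.add_le_add (card_image_le.trans ?_) (card_image_le.trans ?_))) ?_)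
  · rw [Nat.card_Icc]
    omega
  · rw [Nat.card_Icc]
    omega
  · refine card_biUnion_le.trans (sum_le_sum fun t _ => ?_)
    refine (card_biUnion_le_card_mul _ _ _ fun j _ => P.gad_card _ _ _ _).trans ?_
    rw [Nat.card_Icc]
    apply Nat.mul_le_mul_right
    generalize (p - r) / P.s t = A
    generalize 2 * r / P.s t = B
    omega

end count

end Pool.Agent.Lib.MP_debb99_co
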