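import Pool.Agent.Lib.MP_debb99_co.Graph

/-! The lower bound on the stretch of any ordering of the construction. -/

namespace Pool.Agent.Lib.MP_debb99_co

open Finset

lemma ivt (f : ℕ → ℤ) (L : ℤ) (lo hi : ℕ) (hf : ∀ i, lo ≤ i → i < hi → |f i - f (i + 1)| ≤ L)
    (qa qb : ℕ) (ha : lo ≤ qa ∧ qa ≤ hi) (hb : lo ≤ qb ∧ qb ≤ hi) (y : ℤ) (hL : 0 ≤ L)
    (h1 : f qa ≤ y) (h2 : y ≤ f qb) : ∃ q, lo ≤ q ∧ q ≤ hi ∧ y ≤ f q ∧ f q ≤ y + L := by
  by_contra hcon
  push Not at hcon
  have key : ∀ q, lo ≤ q → q ≤ hi → (f q < y ↔ f lo < y) := by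
    intro q hq
    induction q, hq using Nat.le_induction with
    | base => intro _; rfl
    | succ q hq ih =>
      intro hq'
      rw [← ih (by omega)]
      have e1 := hcon q hq (by omega)
      have e2 := hcon (q + 1) (by omega) hq'
      have e3 := abs_le.1 (hf q hq (by omega))
      omega
  have e1 := hcon qa ha.1 ha.2
  have e2 := key qa ha.1 ha.2
  have e3 := key qb hb.1 hb.2
  omega

variable {X Gn : Type}

section

variable (P : Par X Gn) (pos : Vt X Gn → ℤ) (L : ℕ)
  (hL : ∀ u v, P.rel u v → |pos u - pos v| ≤ L)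

include hL

lemma Par.pos_sp {p q : ℕ} (hpq : p ≤ q) (hq : q < P.N) :
    |pos (.sp q) - pos (.sp p)| ≤ L * ((q - p : ℕ) : ℤ) := by
  induction q, hpq using Nat.le_induction with
  | base => simp
  | succ q hpq ih =>
    have h1 := abs_le.1 (ih (by omega))
    have h2 := abs_le.1 (hL _ _ (Or.inl ⟨q, hq, rfl, rfl⟩))
    have : ((q + 1 - p : ℕ) : ℤ) = ((q - p : ℕ) : ℤ) + 1 := by omega
    rw [this, abs_le]
    constructor <;> nlinarith

lemma Par.pos_pt {t j : ℕ} (hJ : P.J t j) (x : X) (g : Gn) (i : ℕ) (hi : i ≤ P.l t + 1) :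
    |pos (P.pt t j x g i) - pos (.br t j x)| ≤ L * (i : ℤ) := by
  induction i with
  | zero => simp [Par.pt]
  | succ i ih =>
    have h1 := abs_le.1 (ih (by omega))
    have h2 := abs_le.1 (hL _ _ (Or.inr (Or.inr ⟨t, j, x, g, i, hJ, by omega, rfl, rfl⟩)))
    push_cast
    rw [abs_le]
    constructor <;> nlinarith

lemma Par.pos_it (a : ℕ)
    (hreach : ∀ Q : ℕ → X → Prop, Q 0 P.x0 → (∀ i x g, Q i x → Q (i + 1) (P.nb x g)) →
      ∀ x, Q a x)
    {t j : ℕ} (hJ : P.J t j) (x : X) (g : Gn) (i : ℕ) (hi1 : 1 ≤ i) (hi : i ≤ P.l t) :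
    |pos (.it t j x g i) - pos (.sp (j * P.s t))| ≤ L * (((a + 1) * (P.l t + 1) : ℕ) : ℤ) := by
  have h1 : |pos (.br t j x) - pos (.br t j P.x0)| ≤ L * ((a : ℤ) * (P.l t + 1)) := by
    refine hreach (fun i x => |pos (.br t j x) - pos (.br t j P.x0)| ≤
      L * ((i : ℤ) * (P.l t + 1))) (by simp) (fun i x g h => ?_) x
    have h2 := P.pos_pt pos L hL hJ x g (P.l t + 1) le_rfl
    have : P.pt t j x g (P.l t + 1) = .br t j (P.nb x g) := by simp [Par.pt]
    rw [this] at h2
    push_cast at h2 ⊢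
    rw [abs_le] at *
    constructor <;> nlinarith [h.1, h.2, h2.1, h2.2]
  have h2 := P.pos_pt pos L hL hJ x g i (by omega)
  have : P.pt t j x g i = .it t j x g i := by
    unfold Par.pt
    rw [if_neg (by omega), if_pos hi]
  rw [this] at h2
  have h3 := hL _ _ (Or.inr (Or.inl ⟨t, j, hJ, rfl, rfl⟩))
  have h4 : (L : ℤ) * i ≤ L * P.l t := by gcongr
  push_cast
  rw [abs_le] at *
  constructor <;> nlinarith [h1.1, h1.2, h2.1, h2.2, h3.1, h3.2]

lemma Par.same_side {t j : ℕ} (hJ : P.J t j) (hl : 0 < P.l t) (x : X) (g : Gn) (b : ℤ)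
    (h : ∀ i, 1 ≤ i → i ≤ P.l t → ¬ (b - L ≤ pos (.it t j x g i) ∧ pos (.it t j x g i) < b + L))
    (i : ℕ) (hi : i ≤ P.l t + 1) : pos (P.pt t j x g i) < b ↔ pos (.br t j x) < b := by
  have hp : ∀ i, 1 ≤ i → i ≤ P.l t → P.pt t j x g i = .it t j x g i := by
    intro i h1 h2
    unfold Par.pt
    rw [if_neg (by omega), if_pos h2]
  induction i with
  | zero => simp [Par.pt]
  | succ i ih =>
    have ih' := ih (by omega)
    have h2 := abs_le.1 (hL _ _ (Or.inr (Or.inr ⟨t, j, x, g, i, hJ, by omega, rfl, rfl⟩)))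
    by_cases h0 : i = 0
    · have := h (i + 1) (by omega) (by omega)
      rw [← hp _ (by omega) (by omega)] at this
      omega
    · have := h i (by omega) (by omega)
      rw [← hp _ (by omega) (by omega)] at this
      omega

end

variable [Fintype X] [Fintype Gn] [DecidableEq X] [DecidableEq Gn]

/-- Index set of the interior vertices of a gadget of level t. -/
def Par.idx (P : Par X Gn) (t : ℕ) : Finset (X × Gn × ℕ) :=
  univ ×ˢ univ ×ˢ Icc 1 (P.l t)

omit [DecidableEq X] [DecidableEq Gn] in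
lemma Par.mem_idx (P : Par X Gn) (t : ℕ) (y : X × Gn × ℕ) :
    y ∈ P.idx t ↔ 1 ≤ y.2.2 ∧ y.2.2 ≤ P.l t := by
  simp [Par.idx]

omit [DecidableEq X] [DecidableEq Gn] in
lemma Par.card_idx (P : Par X Gn) (t : ℕ) :
    (P.idx t).card = Fintype.card X * Fintype.card Gn * P.l t := by
  simp [Par.idx, mul_assoc]

/-- A balanced cut of a gadget is crossed by many paths. -/
lemma Par.cut (P : Par X Gn) (pos : Vt X Gn → ℤ) (L : ℕ)
    (hL : ∀ u v, P.rel u v → |pos u - pos v| ≤ L)
    (hexp : ∀ A : Finset X, (Fintype.card Gn : ℝ) * A.card * (Fintype.card X - A.card) ≤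
      2 * Fintype.card X *
        ((univ.filter fun p : X × Gn => p.1 ∈ A ∧ P.nb p.1 p.2 ∉ A).card : ℝ))
    {t j : ℕ} (hJ : P.J t j) (hl : 0 < P.l t) (b : ℤ)
    (h1 : (P.idx t).card ≤ 8 * ((P.idx t).filter fun y => pos (.it t j y.1 y.2.1 y.2.2) < b).card)
    (h2 : (P.idx t).card ≤
      8 * ((P.idx t).filter fun y => ¬ pos (.it t j y.1 y.2.1 y.2.2) < b).card) :
    Fintype.card X * Fintype.card Gn ≤ 64 * ((P.idx t).filter fun y =>
      b - L ≤ pos (.it t j y.1 y.2.1 y.2.2) ∧ pos (.it t j y.1 y.2.1 y.2.2) < b + L).card := by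
  set Wi := (P.idx t).filter fun y =>
      b - L ≤ pos (.it t j y.1 y.2.1 y.2.2) ∧ pos (.it t j y.1 y.2.1 y.2.2) < b + L with hWi
  set Mix : Finset (X × Gn) := Wi.image fun y => (y.1, y.2.1) with hMix
  have hMW : Mix.card ≤ Wi.card := card_image_le
  set A : Finset X := univ.filter fun x => pos (.br t j x) < b with hA
  have hside : ∀ x g, (x, g) ∉ Mix → ∀ i, i ≤ P.l t + 1 →
      (pos (P.pt t j x g i) < b ↔ x ∈ A) := by
    intro x g hx i hi
    rw [P.same_side pos L hL hJ hl x g b _ i hi]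
    · simp [hA]
    · intro i h1 h2 h3
      apply hx
      exact mem_image.2 ⟨(x, g, i), mem_filter.2 ⟨(P.mem_idx _ _).2 ⟨h1, h2⟩, h3⟩, rfl⟩
  have hp : ∀ x g i, 1 ≤ i → i ≤ P.l t → P.pt t j x g i = .it t j x g i := by
    intro x g i h1 h2
    unfold Par.pt
    rw [if_neg (by omega), if_pos h2]
  have hcut : (univ.filter fun p : X × Gn => p.1 ∈ A ∧ P.nb p.1 p.2 ∉ A) ⊆ Mix := by
    rintro ⟨x, g⟩ hp
    by_contra hx
    have h3 := hside x g hx (P.l t + 1) le_rfl
    have : P.pt t j x g (P.l t + 1) = .br t j (P.nb x g) := by simp [Par.pt]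
    rw [this] at h3
    simp only [mem_filter, mem_univ, true_and] at hp
    apply hp.2
    simp only [hA, mem_filter, mem_univ, true_and]
    exact h3.2 hp.1
  have hgen : ∀ (B : Finset X) (S : Finset (X × Gn × ℕ)), S ⊆ P.idx t →
      (∀ y ∈ S, (y.1, y.2.1) ∉ Mix → y.1 ∈ B) →
      S.card ≤ (Mix.card + B.card * Fintype.card Gn) * P.l t := by
    intro B S hS hB
    have : S.card ≤ ((Mix ∪ B ×ˢ (univ : Finset Gn)) ×ˢ Icc 1 (P.l t)).card := by
      refine card_le_card_of_injOn (fun y => ((y.1, y.2.1), y.2.2)) (fun y hy => ?_) ?_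
      · have h3 := (P.mem_idx _ _).1 (hS hy)
        simp only [coe_product, Set.mem_prod, mem_coe, mem_union, mem_product, mem_univ,
          and_true, mem_Icc]
        refine ⟨?_, h3⟩
        by_cases h4 : (y.1, y.2.1) ∈ Mix
        · exact Or.inl h4
        · exact Or.inr (hB y hy h4)
      · rintro ⟨x, g, i⟩ _ ⟨x', g', i'⟩ _ h
        simpa [and_assoc] using h
    refine this.trans ?_
    rw [card_product, Nat.card_Icc, add_tsub_cancel_right]
    refine Nat.mul_le_mul_right _ ((card_union_le _ _).trans ?_)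
    simp
  have e1 := hgen A ((P.idx t).filter fun y => pos (.it t j y.1 y.2.1 y.2.2) < b)
    (filter_subset _ _) (fun y hy h => by
      obtain ⟨h3, h4⟩ := mem_filter.1 hy
      obtain ⟨h5, h6⟩ := (P.mem_idx _ _).1 h3
      rw [← hside _ _ h y.2.2 (by omega), hp _ _ _ h5 h6]
      exact h4)
  have e2 := hgen Aᶜ ((P.idx t).filter fun y => ¬ pos (.it t j y.1 y.2.1 y.2.2) < b)
    (filter_subset _ _) (fun y hy h => by
      obtain ⟨h3, h4⟩ := mem_filter.1 hy
      obtain ⟨h5, h6⟩ := (P.mem_idx _ _).1 h3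
      rw [mem_compl, ← hside _ _ h y.2.2 (by omega), hp _ _ _ h5 h6]
      exact h4)
  rw [P.card_idx] at h1 h2
  have e3 : Fintype.card X * Fintype.card Gn ≤ 8 * (Mix.card + A.card * Fintype.card Gn) := by
    refine Nat.le_of_mul_le_mul_right ?_ hl
    nlinarith
  have e4 : Fintype.card X * Fintype.card Gn ≤ 8 * (Mix.card + Aᶜ.card * Fintype.card Gn) := by
    refine Nat.le_of_mul_le_mul_right ?_ hl
    nlinarith
  have e5 := hexp A
  have e6 : A.card + Aᶜ.card = Fintype.card X := card_add_card_compl A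
  have e7 : Fintype.card Gn * A.card * Aᶜ.card ≤ 2 * Fintype.card X * Mix.card := by
    have h3 : ((Fintype.card X : ℝ) - A.card) = (Aᶜ.card : ℝ) := by
      rw [← e6]
      push_cast
      ring
    rw [h3] at e5
    have h4 : Fintype.card Gn * A.card * Aᶜ.card ≤ 2 * Fintype.card X *
      (univ.filter fun p : X × Gn => p.1 ∈ A ∧ P.nb p.1 p.2 ∉ A).card := by exact_mod_cast e5
    exact h4.trans (Nat.mul_le_mul_left _ (card_le_card hcut))
  refine le_trans ?_ (Nat.mul_le_mul_left _ hMW)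
  generalize Mix.card = μ at *
  generalize A.card = y at *
  generalize Aᶜ.card = z at *
  generalize Fintype.card Gn = d at *
  generalize Fintype.card X = m at *
  by_contra hc
  push Not at hc
  have hd : 0 < d := by
    rcases Nat.eq_zero_or_pos d with h | h
    · simp [h] at hc
    · exact h
  have f1 : m < 16 * y := by
    refine Nat.lt_of_mul_lt_mul_right (a := d) ?_
    nlinarith
  have f2 : m < 16 * z := by
    refine Nat.lt_of_mul_lt_mul_right (a := d) ?_
    nlinarith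
  have f3 : m * m ≤ 32 * (y * z) := by
    rcases le_total y z with h | h
    · have : m ≤ 2 * z := by omega
      nlinarith
    · have : m ≤ 2 * y := by omega
      nlinarith
  have hm : 0 < m := by
    rcases Nat.eq_zero_or_pos m with h | h
    · simp [h] at hc
    · exact h
  have f4 : m * (m * d) ≤ m * (64 * μ) := by nlinarith
  have := Nat.le_of_mul_le_mul_left f4 hm
  omega

end Pool.Agent.Lib.MP_debb99_co
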