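import Pool.Agent.Lib.MP_debb99_co.Step
import Pool.Agent.Lib.MP_debb99_co.Density
import Pool.Agent.Lib.MP_debb99_co.Expander

/-! The counterexample as a graph on `Fin n`. -/

namespace Pool.Agent.Lib.MP_debb99_co

open Finset

lemma edist_ind {V : Type} (G : SimpleGraph V) (v : V) (Q : ℕ → V → Prop) (h0 : Q 0 v)
    (hm : ∀ r w, Q r w → Q (r + 1) w) (hs : ∀ r w w', G.Adj w w' → Q r w → Q (r + 1) w')
    (r : ℕ) (w : V) (h : G.edist v w ≤ r) : Q r w := by
  have hne : G.edist v w ≠ ⊤ := ne_top_of_le_ne_top (by simp) h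
  obtain ⟨p, hp⟩ := SimpleGraph.exists_walk_of_edist_ne_top hne
  have hlen : p.length ≤ r := by
    rw [← hp] at h
    exact_mod_cast h
  have key : ∀ (u w : V) (p : G.Walk u w) (c : ℕ), Q c u → Q (c + p.length) w := by
    intro u w p
    induction p with
    | nil => intro c hc; simpa using hc
    | cons ha p ih =>
      intro c hc
      have := ih (c + 1) (hs _ _ _ ha hc)
      rw [SimpleGraph.Walk.length_cons]
      rwa [show c + (p.length + 1) = c + 1 + p.length by ring]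
  have h1 := key v w p 0 h0
  rw [zero_add] at h1
  induction r, hlen using Nat.le_induction with
  | base => exact h1
  | succ r _ ih =>
    apply hm
    apply ih
    rw [← hp]
    exact_mod_cast (by assumption)

variable {X Gn : Type} [Fintype X] [Fintype Gn]

theorem Par.exists_graph (P : Par X Gn) (hs : ∀ t, 0 < P.s t) (lm : ℕ)
    (hlm : ∀ t, t < P.k → P.l t ≤ lm) :
    ∃ (n : ℕ) (G : SimpleGraph (Fin n)) (e : Fin n → Vt X Gn),
      n ≤ P.N + P.k * (P.N * (Fintype.card X * (1 + 2 * Fintype.card Gn * lm))) ∧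
      Function.Injective e ∧ (∀ i, P.ok (e i)) ∧ (∀ w, P.ok w → ∃ i, e i = w) ∧
      ∀ i j, G.Adj i j ↔ i ≠ j ∧ (P.rel (e i) (e j) ∨ P.rel (e j) (e i)) := by
  classical
  let S : Finset (Vt X Gn) := (range P.N).image Vt.sp ∪
    (range P.k).biUnion fun t => (range P.N).biUnion fun j => P.gad univ lm t j
  have hS : ∀ w, P.ok w → w ∈ S := by
    intro w hw
    have hj : ∀ t j, P.J t j → j ∈ range P.N := by
      intro t j h
      have := h.2
      have := hs t
      rw [mem_range]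
      nlinarith
    cases w with
    | sp q => exact mem_union_left _ (mem_image_of_mem _ (mem_range.2 hw))
    | br t j x =>
      refine mem_union_right _ (mem_biUnion.2 ⟨t, mem_range.2 hw.1, mem_biUnion.2
        ⟨j, hj t j hw, ?_⟩⟩)
      exact mem_union_left _ (mem_union_left _ (mem_image_of_mem _ (mem_univ _)))
    | it t j x g i =>
      obtain ⟨hJ, h1, h2⟩ := hw
      refine mem_union_right _ (mem_biUnion.2 ⟨t, mem_range.2 hJ.1, mem_biUnion.2
        ⟨j, hj t j hJ, ?_⟩⟩)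
      refine mem_union_left _ (mem_union_right _ (mem_image.2 ⟨(x, g, i), ?_, rfl⟩))
      simp only [mem_product, mem_univ, mem_Icc, true_and]
      exact ⟨h1, h2.trans (hlm t hJ.1)⟩
  have hcard : S.card ≤
      P.N + P.k * (P.N * (Fintype.card X * (1 + 2 * Fintype.card Gn * lm))) := by
    refine (card_union_le _ _).trans (Nat.add_le_add (card_image_le.trans (by simp)) ?_)
    refine (card_biUnion_le_card_mul _ _ _ fun t _ =>
      card_biUnion_le_card_mul _ _ _ fun j _ => P.gad_card _ _ _ _).trans ?_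
    simp
  let T := S.filter P.ok
  let e : Fin T.card → Vt X Gn := fun i => (T.equivFin.symm i : T)
  refine ⟨T.card, SimpleGraph.fromRel fun i j => P.rel (e i) (e j), e,
    (card_filter_le _ _).trans hcard, ?_, fun i => (mem_filter.1 (T.equivFin.symm i).2).2,
    fun w hw => ⟨T.equivFin ⟨w, mem_filter.2 ⟨hS w hw, hw⟩⟩, by simp [e]⟩, fun i j => ?_⟩
  · intro i j h
    exact T.equivFin.symm.injective (Subtype.ext h)
  · rw [SimpleGraph.fromRel_adj]

/-- The radius sequence. -/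
def Rad (k a t : ℕ) : ℕ := (k ^ 3 * a ^ 2 + 1) ^ t - 1

lemma Rad_add_one (k a t : ℕ) : Rad k a t + 1 = (k ^ 3 * a ^ 2 + 1) ^ t :=
  Nat.sub_add_cancel (pow_pos (Nat.succ_pos _) _)

theorem counter (a h0 k : ℕ) (ha0 : 0 < a) (hk : 0 < k) (ha : a ≤ 4 * (h0 + 1))
    (hm : k * a * (2 ^ (2 * a)) ^ h0 ≤ 2 ^ (a * a)) :
    ∃ (n : ℕ) (G : SimpleGraph (Fin n)),
      n ≤ (k ^ 3 * a ^ 2 + 1) ^ k + k * ((k ^ 3 * a ^ 2 + 1) ^ k *
        (2 ^ (a * a) * (1 + 2 * 2 ^ (2 * a) * (k * (k ^ 3 * a ^ 2 + 1) ^ k)))) ∧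
      (∀ (v : Fin n) (r : ℕ), 1 ≤ r → a * ({w | G.edist v w ≤ (r : ℕ∞)} : Set (Fin n)).ncard ≤
        78 * r * (2 ^ (a * a) * 2 ^ (2 * a))) ∧
      ∀ (π : Fin n ≃ Fin n) (L : ℕ),
        (∀ u v, G.Adj u v → |((π u : ℕ) : ℤ) - ((π v : ℕ) : ℤ)| ≤ L) →
        k * (2 ^ (a * a) * 2 ^ (2 * a)) ≤ 128 * L := by
  classical
  let P : Par (Mat a) (Vec a × Vec a) :=
    { nb := fun x g => x + r1 g
      x0 := 0
      k := k
      N := Rad k a k + 1
      l := fun t => k * (Rad k a t + 1)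
      s := fun t => k * a * (k * (Rad k a t + 1)) }
  have hs : ∀ t, 0 < P.s t := fun t => by
    simp only [P]
    positivity
  have hΘ : 2 ≤ k ^ 3 * a ^ 2 + 1 := by
    have : 0 < k ^ 3 * a ^ 2 := by positivity
    omega
  obtain ⟨n, G, e, hn, he, hok, hsurj, hadj⟩ := P.exists_graph hs (k * (k ^ 3 * a ^ 2 + 1) ^ k)
    (fun t ht => by
      simp only [P, Rad_add_one]
      exact Nat.mul_le_mul_left _ (Nat.pow_le_pow_right (by omega) ht.le))
  have hinv : ∀ x g, P.nb (P.nb x g) g = x := by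
    intro x g
    simp only [P]
    rw [add_assoc, add_self_mat, add_zero]
  refine ⟨n, G, ?_, ?_, ?_⟩
  · rw [card_mat, card_gen] at hn
    simpa only [P, Rad_add_one] using hn
  · intro v r hr
    obtain ⟨Q, hQ0, hQm, hQs, hQ⟩ := P.ball_bound hinv (0, 0) (fun x => by simp [P, r1_zero]) a h0
      ha0 hk (fun t => by simp only [P]; positivity) (fun t => by
        simp only [P, Rad_add_one, pow_succ]
        have : 0 < (k ^ 3 * a ^ 2 + 1) ^ t := by positivity
        simp only [pow_succ] at this hΘ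
        nlinarith [Nat.mul_le_mul_left (k * (k ^ 0 * k * k * k * (a ^ 0 * a * a) + 1) ^ t) hΘ])
      (fun t => rfl) ha (by rw [card_mat, card_gen]; exact hm) (e v)
    obtain ⟨B, hB, hBc⟩ := hQ r hr
    rw [card_mat, card_gen] at hBc
    refine le_trans (Nat.mul_le_mul_left _ ?_) hBc
    rw [← Set.ncard_coe_finset]
    refine Set.ncard_le_ncard_of_injOn e (fun w hw => ?_) he.injOn
    refine hB _ (hok w) ?_
    exact edist_ind G v (fun r w => Q r (e w)) hQ0 (fun r w => hQm r _)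
      (fun r w w' h => hQs r _ _ ((hadj _ _).1 h).2) r w hw
  · intro π L hπ
    let pos : Vt (Mat a) (Vec a × Vec a) → ℤ := fun w =>
      if h : ∃ i, e i = w then ((π h.choose : ℕ) : ℤ) else 0
    have hpos : ∀ i, pos (e i) = ((π i : ℕ) : ℤ) := by
      intro i
      have h : ∃ j, e j = e i := ⟨i, rfl⟩
      simp only [pos]
      rw [dif_pos h, he h.choose_spec]
    have := P.lower pos L (fun u v huv => ?_) (fun u v hu hv h => ?_) a ha0
      (fun Q h0 hs x => reach Q h0 hs x) (fun A => by convert expansion A) ?_ hk (Rad k a)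
      (by simp [Rad]) (fun t => ?_) (fun t => rfl) hs (by simp [P])
    · rwa [card_mat, card_gen] at this
    · obtain ⟨i, rfl⟩ := hsurj u (P.ok_of_rel huv).1
      obtain ⟨j, rfl⟩ := hsurj v (P.ok_of_rel huv).2
      rw [hpos, hpos]
      by_cases hij : i = j
      · simp [hij]
      · exact hπ i j ((hadj i j).2 ⟨hij, Or.inl huv⟩)
    · obtain ⟨i, rfl⟩ := hsurj u hu
      obtain ⟨j, rfl⟩ := hsurj v hv
      rw [hpos, hpos] at h
      have : π i = π j := Fin.ext (by exact_mod_cast h)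
      rw [π.injective this]
    · rw [card_mat, card_gen, ← pow_add]
      calc 2 = 2 ^ 1 := by norm_num
        _ ≤ _ := Nat.pow_le_pow_right (by norm_num) (by omega)
    · have h1 := Rad_add_one k a t
      have h2 := Rad_add_one k a (t + 1)
      rw [pow_succ, ← h1] at h2
      simp only [P]
      nlinarith

lemma size_bound (y : ℕ) (hy : 1 ≤ y) :
    let a := 2 ^ y
    let k := a * a
    (k ^ 3 * a ^ 2 + 1) ^ k + k * ((k ^ 3 * a ^ 2 + 1) ^ k *
        (2 ^ (a * a) * (1 + 2 * 2 ^ (2 * a) * (k * (k ^ 3 * a ^ 2 + 1) ^ k)))) ≤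
      2 ^ (27 * y * k) := by
  intro a k
  have ha : 1 ≤ a := Nat.one_le_two_pow
  have hk : a ≤ k := Nat.le_mul_self a
  have h1 : k ^ 3 * a ^ 2 + 1 ≤ 2 ^ (9 * y) := by
    have e1 : k ^ 3 * a ^ 2 = 2 ^ (8 * y) := by
      simp only [k, a]
      ring
    have e2 : 2 ^ (8 * y + 1) ≤ 2 ^ (9 * y) := Nat.pow_le_pow_right (by norm_num) (by omega)
    have e3 : 1 ≤ 2 ^ (8 * y) := Nat.one_le_two_pow
    rw [pow_succ] at e2
    omega
  have h2 : (k ^ 3 * a ^ 2 + 1) ^ k ≤ 2 ^ (9 * y * k) := by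
    rw [pow_mul 2 (9 * y) k]
    exact Nat.pow_le_pow_left h1 _
  have h3 : 1 ≤ (k ^ 3 * a ^ 2 + 1) ^ k := pow_pos (Nat.succ_pos _) _
  generalize (k ^ 3 * a ^ 2 + 1) ^ k = N at *
  have hk2 : k = 2 ^ (2 * y) := by
    simp only [k, a]
    ring
  have h4 : 1 ≤ 2 ^ (2 * a) * (k * N) := Nat.mul_pos (by positivity) (Nat.mul_pos (by omega) h3)
  have h5 : 1 ≤ k * (2 ^ (a * a) * (2 ^ (2 * a) * (k * N))) :=
    Nat.mul_pos (by omega) (Nat.mul_pos (by positivity) h4)
  calc N + k * (N * (2 ^ (a * a) * (1 + 2 * 2 ^ (2 * a) * (k * N))))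
      ≤ N * (k * (2 ^ (a * a) * (2 ^ (2 * a) * (k * N)))) +
        k * (N * (2 ^ (a * a) * (2 ^ (2 * a) * (k * N) + 2 * 2 ^ (2 * a) * (k * N)))) := by
        gcongr
        exact Nat.le_mul_of_pos_right _ h5
    _ = 2 ^ 2 * k * k * 2 ^ (a * a) * 2 ^ (2 * a) * N * N := by ring
    _ ≤ 2 ^ 2 * 2 ^ (2 * y) * 2 ^ (2 * y) * 2 ^ (a * a) * 2 ^ (2 * a) * 2 ^ (9 * y * k) *
        2 ^ (9 * y * k) := by
        gcongr
        · exact hk2.le
        · exact hk2.le
    _ = 2 ^ (2 + 2 * y + 2 * y + k + 2 * a + 9 * y * k + 9 * y * k) := by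
        simp only [pow_add, k]
    _ ≤ _ := by
        apply Nat.pow_le_pow_right (by norm_num)
        have : 1 ≤ k := by omega
        have e1 : y ≤ y * k := Nat.le_mul_of_pos_right _ this
        have e2 : k ≤ y * k := Nat.le_mul_of_pos_left _ hy
        nlinarith

theorem main :
    ¬ (∃ C : ℝ, ∀ (n : ℕ) (G : SimpleGraph (Fin n)) (D : ℝ),
      (∀ (v : Fin n) (r : ℕ), 1 ≤ r →
        ((({w | G.edist v w ≤ (r : ℕ∞)} : Set (Fin n)).ncard : ℕ) : ℝ) ≤ 2 * (r : ℝ) * D) →
      ∃ π : Fin n ≃ Fin n, ∀ u v : Fin n, G.Adj u v →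
        |(((π u : Fin n) : ℕ) : ℝ) - (((π v : Fin n) : ℕ) : ℝ)| ≤ C * Real.log (n : ℝ) * D) := by
  rintro ⟨C, hC⟩
  obtain ⟨c, hc⟩ := exists_nat_ge C
  obtain ⟨z, hz⟩ : ∃ z : ℕ, 128 * 39 * 27 * c + 1 ≤ z := ⟨_, le_rfl⟩
  set y := z + 4 with hy
  set a := 2 ^ y with ha
  have hya : y * y ≤ a := by
    have : ∀ w, (w + 4) * (w + 4) ≤ 2 ^ (w + 4) := by
      intro w
      induction w with
      | zero => norm_num
      | succ w ih =>
        rw [show w + 1 + 4 = (w + 4) + 1 by ring, pow_succ]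
        nlinarith
    exact this z
  have ha4 : a = 4 * 2 ^ (z + 2) := by rw [ha, hy]; ring
  have ha0 : 0 < a := by positivity
  obtain ⟨n, G, hn, hD, hB⟩ := counter a (2 ^ (z + 2)) (a * a) ha0 (by positivity) (by omega) (by
    have e1 : a * a * a = 2 ^ (3 * y) := by rw [ha]; ring
    rw [e1, ← pow_mul, ← pow_add]
    apply Nat.pow_le_pow_right (by norm_num)
    have e2 : 4 ≤ 2 ^ (z + 2) := by
      rw [pow_add]
      have : 1 ≤ 2 ^ z := Nat.one_le_two_pow
      omega
    have e3 : y ≤ a := by nlinarith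
    generalize 2 ^ (z + 2) = h at *
    nlinarith)
  have hn' : n ≤ 2 ^ (27 * y * (a * a)) := hn.trans (size_bound y (by omega))
  set E : ℕ := 2 ^ (a * a) * 2 ^ (2 * a) with hE
  have hE0 : (0 : ℝ) < E := by rw [hE]; positivity
  have haR : (0 : ℝ) < a := by exact_mod_cast ha0
  obtain ⟨π, hπ⟩ := hC n G (39 * E / a) (fun v r hr => by
    have h1 : (a : ℝ) * (({w | G.edist v w ≤ (r : ℕ∞)} : Set (Fin n)).ncard : ℝ) ≤
        78 * r * E := by exact_mod_cast hD v r hr
    rw [← mul_div_assoc, le_div_iff₀ haR]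
    linarith)
  have hlog : Real.log n ≤ 27 * y * (a * a) := by
    rcases Nat.eq_zero_or_pos n with h | h
    · rw [h]
      simp only [Nat.cast_zero, Real.log_zero]
      positivity
    · have h1 : (n : ℝ) ≤ 2 ^ (27 * y * (a * a)) := by exact_mod_cast hn'
      have h2 := Real.log_le_log (by exact_mod_cast h) h1
      rw [Real.log_pow] at h2
      have h3 : Real.log 2 ≤ 1 := by
        have := Real.log_two_lt_d9
        linarith
      push_cast at h2
      have h4 : (0 : ℝ) ≤ 27 * y * (a * a) := by positivity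
      nlinarith
  have hlog0 : 0 ≤ Real.log n := Real.log_natCast_nonneg n
  have hup : C * Real.log n * (39 * E / a) ≤ ((c * (27 * y * a) * (39 * E) : ℕ) : ℝ) := by
    have h1 : C * Real.log n ≤ c * (27 * y * (a * a)) :=
      (mul_le_mul_of_nonneg_right hc hlog0).trans (by gcongr)
    calc C * Real.log n * (39 * E / a) ≤ c * (27 * y * (a * a)) * (39 * E / a) := by gcongr
      _ = _ := by
        push_cast
        field_simp
  have h := hB π (c * (27 * y * a) * (39 * E)) (fun u v huv => by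
    have h1 := (hπ u v huv).trans hup
    exact_mod_cast h1)
  have hE1 : 0 < E := by exact_mod_cast hE0
  have h2 : a * (a * E) ≤ (128 * 39 * 27 * c * y) * (a * E) := by nlinarith
  have h3 := Nat.le_of_mul_le_mul_right h2 (Nat.mul_pos ha0 hE1)
  nlinarith

end Pool.Agent.Lib.MP_debb99_co
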