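import Pool.Agent.Lib.MP_debb99_co.Lower

/-! The recursion over the scales. -/

namespace Pool.Agent.Lib.MP_debb99_co

open Finset

variable {X Gn : Type} [Fintype X] [Fintype Gn] [DecidableEq X] [DecidableEq Gn]

omit [DecidableEq X] [DecidableEq Gn] in
lemma Par.good_gadget (P : Par X Gn) (pos : Vt X Gn → ℤ) (L : ℕ)
    (hL : ∀ u v, P.rel u v → |pos u - pos v| ≤ L)
    (hinj : ∀ u v, P.ok u → P.ok v → pos u = pos v → u = v) (a : ℕ) (ha : 0 < a)
    (hreach : ∀ Q : ℕ → X → Prop, Q 0 P.x0 → (∀ i x g, Q i x → Q (i + 1) (P.nb x g)) →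
      ∀ x, Q a x)
    (hE : 0 < Fintype.card X * Fintype.card Gn)
    (hLk : 128 * L ≤ P.k * (Fintype.card X * Fintype.card Gn))
    {t : ℕ} (ht : t < P.k) (hl : 0 < P.l t) (hs : 0 < P.s t) (p : ℕ)
    (hp : p + P.k * a * P.s t < P.N) (α β : ℤ)
    (hαβ : ∀ q, p ≤ q → q ≤ p + P.k * a * P.s t → α ≤ pos (.sp q) ∧ pos (.sp q) ≤ β) :
    ∃ j, P.J t j ∧ 8 * ((P.idx t).filter fun y => pos (.it t j y.1 y.2.1 y.2.2) < α ∨
      β < pos (.it t j y.1 y.2.1 y.2.2)).card < (P.idx t).card := by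
  by_contra hcon
  push Not at hcon
  set j0 := p / P.s t + 1 with hj0
  have hj : ∀ j ∈ Ico j0 (j0 + P.k * a), p ≤ j * P.s t ∧ j * P.s t ≤ p + P.k * a * P.s t := by
    intro j hj
    rw [mem_Ico] at hj
    have h1 := Nat.div_mul_le_self p (P.s t)
    have h2 := Nat.lt_div_mul_add (a := p) hs
    constructor
    · calc p ≤ (p / P.s t + 1) * P.s t := by rw [add_mul]; omega
        _ ≤ j * P.s t := Nat.mul_le_mul_right _ hj.1
    · calc j * P.s t ≤ (p / P.s t + P.k * a) * P.s t := Nat.mul_le_mul_right _ (by omega)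
        _ ≤ _ := by rw [add_mul]; omega
  have hJ : ∀ j ∈ Ico j0 (j0 + P.k * a), P.J t j := fun j h => ⟨ht, by
    have := hj j h
    omega⟩
  set S := (Ico j0 (j0 + P.k * a)).sigma fun j => (P.idx t).filter fun y =>
    pos (.it t j y.1 y.2.1 y.2.2) < α ∨ β < pos (.it t j y.1 y.2.1 y.2.2) with hS
  have h1 : P.k * a * (P.idx t).card ≤ 8 * S.card := by
    rw [hS, card_sigma, mul_sum]
    have : P.k * a * (P.idx t).card = ∑ j ∈ Ico j0 (j0 + P.k * a), (P.idx t).card := by simp
    rw [this]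
    exact sum_le_sum fun j h => hcon j (hJ j h)
  set Δ : ℕ := L * ((a + 1) * (P.l t + 1)) with hΔ
  have h2 : S.card ≤ (Ico (α - Δ) α ∪ Ioc β (β + Δ)).card := by
    refine card_le_card_of_injOn (fun z => pos (.it t z.1 z.2.1 z.2.2.1 z.2.2.2)) ?_ ?_
    · intro z hz
      obtain ⟨h3, h4⟩ := mem_sigma.1 hz
      obtain ⟨h5, h6⟩ := mem_filter.1 h4
      obtain ⟨h7, h8⟩ := (P.mem_idx _ _).1 h5
      have h9 := abs_le.1 (P.pos_it pos L hL a hreach (hJ _ h3) z.2.1 z.2.2.1 z.2.2.2 h7 h8)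
      have h10 := hαβ _ (hj _ h3).1 (hj _ h3).2
      have h11 : (L : ℤ) * (((a + 1) * (P.l t + 1) : ℕ) : ℤ) = Δ := by rw [hΔ]; push_cast; ring
      rw [h11] at h9
      simp only [coe_union, coe_Ico, coe_Ioc, Set.mem_union, Set.mem_Ico, Set.mem_Ioc]
      omega
    · rintro ⟨j, x, g, i⟩ hz ⟨j', x', g', i'⟩ hz' h
      obtain ⟨h3, h4⟩ := mem_sigma.1 hz
      obtain ⟨h3', h4'⟩ := mem_sigma.1 hz'
      have := hinj _ _ (show P.ok (.it t j x g i) from
        ⟨hJ _ h3, (P.mem_idx _ _).1 (mem_filter.1 h4).1⟩) (show P.ok (.it t j' x' g' i') from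
        ⟨hJ _ h3', (P.mem_idx _ _).1 (mem_filter.1 h4').1⟩) h
      cases this
      rfl
  have h3 : S.card ≤ 2 * Δ := by
    refine h2.trans ((card_union_le _ _).trans ?_)
    simp
    omega
  rw [P.card_idx] at h1
  generalize Fintype.card X * Fintype.card Gn = E at *
  have h4 : (a + 1) * (P.l t + 1) ≤ 4 * (a * P.l t) := by nlinarith
  have h5 : Δ ≤ L * (4 * (a * P.l t)) := Nat.mul_le_mul_left _ h4
  have h6 : (P.k * E) * (a * P.l t) ≤ (64 * L) * (a * P.l t) := by nlinarith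
  have h7 := Nat.le_of_mul_le_mul_right h6 (Nat.mul_pos ha hl)
  have h8 : 0 < P.k * E := Nat.mul_pos (by omega) hE
  omega

lemma quantile {I : Type} (S : Finset I) (f : I → ℤ) (hf : Set.InjOn f S) (α β : ℤ)
    (h : 8 * (S.filter fun y => f y < α ∨ β < f y).card < S.card) :
    ∃ b1 : ℤ, α ≤ b1 ∧ ∀ b, b1 ≤ b → 4 * (b - b1 + 1) ≤ 3 * S.card →
      b ≤ β ∧ S.card ≤ 8 * (S.filter fun y => f y < b).card ∧
        S.card ≤ 8 * (S.filter fun y => ¬ f y < b).card := by
  classical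
  have hc : ∀ b, (S.filter fun y => f y < b).card + (S.filter fun y => ¬ f y < b).card = S.card :=
    fun b => card_filter_add_card_filter_not _
  have hmono : ∀ b b', b ≤ b' →
      (S.filter fun y => f y < b).card ≤ (S.filter fun y => f y < b').card :=
    fun b b' hb => card_le_card (monotone_filter_right _ fun y _ hy => lt_of_lt_of_le hy hb)
  have hstep : ∀ b b', b ≤ b' →
      ((S.filter fun y => f y < b').card : ℤ) ≤ (S.filter fun y => f y < b).card + (b' - b) := by
    intro b b' hb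
    have h1 : (S.filter fun y => f y < b') ⊆
        (S.filter fun y => f y < b) ∪ S.filter fun y => f y ∈ Ico b b' := by
      intro y hy
      simp only [mem_filter, mem_union, mem_Ico] at *
      by_cases h : f y < b
      · exact Or.inl ⟨hy.1, h⟩
      · exact Or.inr ⟨hy.1, by omega, hy.2⟩
    have h2 : (S.filter fun y => f y ∈ Ico b b').card ≤ (Ico b b').card :=
      card_le_card_of_injOn f (fun y hy => (mem_filter.1 hy).2)
        (hf.mono fun y hy => (mem_filter.1 hy).1)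
    have h3 := (card_le_card h1).trans (card_union_le _ _)
    rw [Int.card_Ico] at h2
    omega
  have hα : 8 * (S.filter fun y => f y < α).card < S.card :=
    lt_of_le_of_lt (Nat.mul_le_mul_left _
      (card_le_card (monotone_filter_right _ fun y _ hy => Or.inl hy))) h
  have hβ : 8 * (S.filter fun y => ¬ f y < β + 1).card < S.card :=
    lt_of_le_of_lt (Nat.mul_le_mul_left _
      (card_le_card (monotone_filter_right _ fun y _ hy => Or.inr (by omega)))) h
  obtain ⟨b1, hb1, hmin⟩ := Int.exists_least_of_bdd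
    (P := fun b => S.card ≤ 8 * (S.filter fun y => f y < b).card)
    ⟨α, fun b hb => by
      by_contra h
      have := hmono b α (by omega)
      omega⟩
    ⟨β + 1, by
      have := hc (β + 1)
      omega⟩
  have h1 : ¬ S.card ≤ 8 * (S.filter fun y => f y < b1 - 1).card := fun h => by
    have := hmin _ h
    omega
  refine ⟨b1, ?_, fun b hb hb' => ?_⟩
  · by_contra h
    have := hmono b1 α (by omega)
    omega
  · have e1 := hstep (b1 - 1) b (by omega)
    have e2 := hmono b1 b hb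
    have e3 := hc b
    have e4 := hc (β + 1)
    refine ⟨?_, by omega, by omega⟩
    by_contra h
    have := hmono (β + 1) b (by omega)
    omega

/-- The level of a vertex. -/
def Vt.lvl : Vt X Gn → ℕ
  | .it t _ _ _ _ => t
  | _ => 0

theorem Par.lower (P : Par X Gn) (pos : Vt X Gn → ℤ) (L : ℕ)
    (hL : ∀ u v, P.rel u v → |pos u - pos v| ≤ L)
    (hinj : ∀ u v, P.ok u → P.ok v → pos u = pos v → u = v) (a : ℕ) (ha : 0 < a)
    (hreach : ∀ Q : ℕ → X → Prop, Q 0 P.x0 → (∀ i x g, Q i x → Q (i + 1) (P.nb x g)) →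
      ∀ x, Q a x)
    (hexp : ∀ A : Finset X, (Fintype.card Gn : ℝ) * A.card * (Fintype.card X - A.card) ≤
      2 * Fintype.card X *
        ((univ.filter fun p : X × Gn => p.1 ∈ A ∧ P.nb p.1 p.2 ∉ A).card : ℝ))
    (hE : 2 ≤ Fintype.card X * Fintype.card Gn) (hk : 0 < P.k) (R : ℕ → ℕ) (hR0 : R 0 = 0)
    (hR : ∀ t, R (t + 1) = P.k * a * P.s t + R t) (hl : ∀ t, P.l t = P.k * (R t + 1))
    (hs : ∀ t, 0 < P.s t) (hN : R P.k < P.N) :
    P.k * (Fintype.card X * Fintype.card Gn) ≤ 128 * L := by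
  classical
  by_contra hLk
  push Not at hLk
  have key : ∀ t, t ≤ P.k → ∀ p, p + R t < P.N → ∃ b : ℤ, |b - pos (.sp p)| ≤ L * (R t : ℤ) ∧
      ∃ W : Finset (Vt X Gn), (∀ w ∈ W, P.ok w ∧ w.lvl < t ∧ b - L ≤ pos w ∧ pos w < b + L) ∧
        t * (Fintype.card X * Fintype.card Gn) ≤ 64 * W.card := by
    intro t
    induction t with
    | zero =>
      intro _ p _
      exact ⟨pos (.sp p), by simp [hR0], ∅, by simp, by simp⟩
    | succ t ih =>
      intro ht p hp
      rw [hR] at hp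
      have hlt : 0 < P.l t := by rw [hl]; positivity
      obtain ⟨qa, hqa, hα⟩ := exists_min_image (Icc p (p + P.k * a * P.s t))
        (fun q => pos (.sp q)) ⟨p, by simp⟩
      obtain ⟨qb, hqb, hβ⟩ := exists_max_image (Icc p (p + P.k * a * P.s t))
        (fun q => pos (.sp q)) ⟨p, by simp⟩
      obtain ⟨j, hJ, hj⟩ := P.good_gadget pos L hL hinj a ha hreach (by omega) hLk.le
        (show t < P.k by omega) hlt (hs t) p (by omega) (pos (.sp qa)) (pos (.sp qb))
        (fun q h1 h2 => ⟨hα q (mem_Icc.2 ⟨h1, h2⟩), hβ q (mem_Icc.2 ⟨h1, h2⟩)⟩)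
      have hinjI : Function.Injective fun y : X × Gn × ℕ => Vt.it t j y.1 y.2.1 y.2.2 := by
        rintro ⟨x, g, i⟩ ⟨x', g', i'⟩ h
        cases h
        rfl
      obtain ⟨b1, hb1, hq⟩ := quantile (P.idx t) (fun y => pos (.it t j y.1 y.2.1 y.2.2))
        (fun y hy y' hy' h => hinjI (hinj _ _ ⟨hJ, (P.mem_idx _ _).1 hy⟩
          ⟨hJ, (P.mem_idx _ _).1 hy'⟩ h)) _ _ hj
      have hnum : 4 * (2 * (L * R t) + L + 1) ≤ 3 * (P.idx t).card := by
        rw [P.card_idx, hl]
        generalize Fintype.card X * Fintype.card Gn = E at *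
        have h1 : 128 * L * (R t + 1) ≤ P.k * E * (R t + 1) := Nat.mul_le_mul_right _ hLk.le
        have h2 : 2 ≤ P.k * E * (R t + 1) := by
          calc 2 = 1 * 2 * 1 := by norm_num
            _ ≤ _ := Nat.mul_le_mul (Nat.mul_le_mul hk hE) (by omega)
        nlinarith
      have hnum' : 4 * (2 * ((L : ℤ) * R t) + L + 1) ≤ 3 * ((P.idx t).card : ℤ) := by
        exact_mod_cast hnum
      have hLR : (0 : ℤ) ≤ L * R t := by positivity
      obtain ⟨q, hq1, hq2, hq3, hq4⟩ := ivt (fun q => pos (.sp q)) L p (p + P.k * a * P.s t)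
        (fun i _ hi => hL _ _ (Or.inl ⟨i, by omega, rfl, rfl⟩)) qa qb (mem_Icc.1 hqa)
        (mem_Icc.1 hqb) (b1 + L * R t) (by positivity) (by omega)
        (hq _ (by omega) (by omega)).1
      obtain ⟨b, hb, W, hW, hWc⟩ := ih (by omega) q (by omega)
      have hb' := abs_le.1 hb
      obtain ⟨-, c1, c2⟩ := hq b (by omega) (by omega)
      have hcut := P.cut pos L hL hexp hJ hlt b c1 c2
      refine ⟨b, ?_, W ∪ ((P.idx t).filter fun y =>
        b - L ≤ pos (.it t j y.1 y.2.1 y.2.2) ∧ pos (.it t j y.1 y.2.1 y.2.2) < b + L).image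
          fun y => Vt.it t j y.1 y.2.1 y.2.2, ?_, ?_⟩
      · have h1 := abs_le.1 (P.pos_sp pos L hL hq1 (by omega))
        have h2 : (L : ℤ) * ((q - p : ℕ) : ℤ) ≤ L * ((P.k * a * P.s t : ℕ) : ℤ) := by
          gcongr
          omega
        rw [hR, Nat.cast_add, mul_add, abs_le]
        constructor <;> linarith [h1.1, h1.2, hb'.1, hb'.2]
      · intro w hw
        rcases mem_union.1 hw with hw | hw
        · obtain ⟨h1, h2, h3⟩ := hW w hw
          exact ⟨h1, by omega, h3⟩
        · obtain ⟨y, hy, rfl⟩ := mem_image.1 hw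
          obtain ⟨h1, h2⟩ := mem_filter.1 hy
          exact ⟨⟨hJ, (P.mem_idx _ _).1 h1⟩, by simp [Vt.lvl], h2⟩
      · rw [card_union_of_disjoint, card_image_of_injective _ hinjI]
        · rw [add_mul, mul_add]
          omega
        · rw [disjoint_left]
          intro w hw hw'
          obtain ⟨y, hy, rfl⟩ := mem_image.1 hw'
          have := (hW _ hw).2.1
          simp [Vt.lvl] at this
  obtain ⟨b, -, W, hW, hWc⟩ := key P.k le_rfl 0 (by omega)
  have : W.card ≤ (Ico (b - L) (b + L)).card :=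
    card_le_card_of_injOn pos (fun w hw => by simpa using (hW w hw).2.2)
      (fun u hu v hv h => hinj u v (hW u hu).1 (hW v hv).1 h)
  rw [Int.card_Ico] at this
  omega

end Pool.Agent.Lib.MP_debb99_co
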