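import Mathlib

/- Beck-Fiala rounding with several choices per column. -/

set_option autoImplicit false

namespace Pool.Agent.Lib.MP_debb99_co.Up

open Finset

theorem exists_kernel {α β : Type} [Fintype α] [Fintype β] (M : β → α → ℝ)
    (h : Fintype.card β < Fintype.card α) :
    ∃ v : α → ℝ, v ≠ 0 ∧ ∀ b, ∑ a, M b a * v a = 0 := by
  classical
  have hk : LinearMap.ker (Matrix.mulVecLin (Matrix.of M)) ≠ ⊥ := by
    apply LinearMap.ker_ne_bot_of_finrank_lt
    simpa using h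
  obtain ⟨v, hv, hv0⟩ := Submodule.exists_mem_ne_zero_of_ne_bot hk
  refine ⟨v, hv0, fun b => ?_⟩
  have := congrFun (LinearMap.mem_ker.mp hv) b
  simpa [Matrix.mulVec, dotProduct] using this

section
variable {I S R : Type} [Fintype I] [Fintype S] [Fintype R]

theorem other_pos {x : S → ℝ} (h0 : ∀ s, 0 ≤ x s) (h1 : ∑ s, x s = 1) {s : S}
    (hs : x s < 1) : ∃ s', s' ≠ s ∧ 0 < x s' := by
  classical
  by_contra hc
  push Not at hc
  have : ∑ s', x s' = x s := by
    apply Finset.sum_eq_single s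
    · intro b _ hb
      exact le_antisymm (hc b hb) (h0 b)
    · simp
  linarith

theorem two_le {x : S → ℝ} (h0 : ∀ s, 0 ≤ x s) (h1 : ∑ s, x s = 1) {s s' : S}
    (hs : s ≠ s') : x s + x s' ≤ 1 := by
  classical
  rw [← h1, ← Finset.sum_pair hs]
  exact Finset.sum_le_sum_of_subset_of_nonneg (Finset.subset_univ _) (fun i _ _ => h0 i)

theorem le_one {x : S → ℝ} (h0 : ∀ s, 0 ≤ x s) (h1 : ∑ s, x s = 1) (s : S) : x s ≤ 1 := by
  rw [← h1]
  exact Finset.single_le_sum (fun i _ => h0 i) (Finset.mem_univ s)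

theorem direct_bound (a : I → S → ℝ) (x : I → S → ℝ) (h0 : ∀ i s, 0 ≤ x i s)
    (h1 : ∀ i, ∑ s, x i s = 1) (σ : I → S) (hσ : ∀ i, 0 < x i (σ i))
    (F : Finset (I × S)) (hF : ∀ q : I × S, 0 < x q.1 q.2 → x q.1 q.2 < 1 → q ∈ F) :
    |∑ i, a i (σ i) - ∑ i, ∑ s, x i s * a i s| ≤ ∑ q ∈ F, |a q.1 q.2| := by
  classical
  have e1 : ∑ i, a i (σ i) - ∑ i, ∑ s, x i s * a i s =
      ∑ q : I × S, ((if q.2 = σ q.1 then 1 else 0) - x q.1 q.2) * a q.1 q.2 := by
    rw [Fintype.sum_prod_type, ← Finset.sum_sub_distrib]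
    refine Finset.sum_congr rfl fun i _ => ?_
    simp only [sub_mul, Finset.sum_sub_distrib, ite_mul, one_mul, zero_mul]
    rw [Finset.sum_ite_eq' Finset.univ (σ i)]
    simp
  rw [e1]
  have e2 : ∑ q : I × S, ((if q.2 = σ q.1 then 1 else 0) - x q.1 q.2) * a q.1 q.2 =
      ∑ q ∈ F, ((if q.2 = σ q.1 then 1 else 0) - x q.1 q.2) * a q.1 q.2 := by
    symm
    apply Finset.sum_subset (Finset.subset_univ _)
    intro q _ hq
    have hle := le_one (h0 q.1) (h1 q.1) q.2
    have : (if q.2 = σ q.1 then (1:ℝ) else 0) - x q.1 q.2 = 0 := by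
      split_ifs with he
      · have hp : 0 < x q.1 q.2 := by rw [he]; exact hσ _
        have : ¬ x q.1 q.2 < 1 := fun hl => hq (hF q hp hl)
        linarith [not_lt.mp this]
      · have h2 := two_le (h0 q.1) (h1 q.1) he
        have h3 := hσ q.1
        have : ¬ 0 < x q.1 q.2 := fun hp => hq (hF q hp (by linarith))
        linarith [not_lt.mp this, h0 q.1 q.2]
    rw [this, zero_mul]
  rw [e2]
  refine (Finset.abs_sum_le_sum_abs _ _).trans (Finset.sum_le_sum fun q _ => ?_)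
  rw [abs_mul]
  have hle := le_one (h0 q.1) (h1 q.1) q.2
  have h00 := h0 q.1 q.2
  have : |(if q.2 = σ q.1 then (1:ℝ) else 0) - x q.1 q.2| ≤ 1 := by
    rw [abs_le]; split_ifs <;> constructor <;> linarith
  calc _ ≤ 1 * |a q.1 q.2| := by gcongr
    _ = _ := one_mul _

theorem exists_dir (a : I → S → R → ℝ) (Δ : ℝ) (hΔ : ∀ i s, ∑ ρ, |a i s ρ| ≤ Δ)
    (x : I → S → ℝ) (h0 : ∀ i s, 0 ≤ x i s) (h1 : ∀ i, ∑ s, x i s = 1)
    (F : Finset (I × S)) (hF : ∀ q : I × S, q ∈ F ↔ 0 < x q.1 q.2 ∧ x q.1 q.2 < 1)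
    (hne : F.Nonempty) :
    ∃ d : I → S → ℝ, (∀ i s, (i, s) ∉ F → d i s = 0) ∧ (∃ i s, d i s < 0) ∧
      (∀ i, ∑ s, d i s = 0) ∧
      ∀ ρ, 2 * Δ < ∑ q ∈ F, |a q.1 q.2 ρ| → ∑ i, ∑ s, d i s * a i s ρ = 0 := by
  classical
  set A : Finset R := Finset.univ.filter (fun ρ => 2 * Δ < ∑ q ∈ F, |a q.1 q.2 ρ|) with hA
  set J : Finset I := F.image Prod.fst with hJ
  have hJc : 2 * J.card ≤ F.card := by
    apply Finset.mul_card_image_le_card
    intro i hi
    obtain ⟨q, hq, rfl⟩ := Finset.mem_image.mp hi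
    obtain ⟨hq0, hq1⟩ := (hF q).mp hq
    obtain ⟨s', hs', hp⟩ := other_pos (h0 q.1) (h1 q.1) hq1
    have h2 := two_le (h0 q.1) (h1 q.1) hs'
    have hsub : ({q, (q.1, s')} : Finset (I × S)) ⊆ F.filter (fun y => y.1 = q.1) := by
      intro y hy
      simp only [Finset.mem_insert, Finset.mem_singleton] at hy
      rcases hy with rfl | rfl
      · simp [hq]
      · simp only [Finset.mem_filter, and_true]
        exact (hF _).mpr ⟨hp, by simp only; linarith⟩
    have hc : ({q, (q.1, s')} : Finset (I × S)).card = 2 := by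
      apply Finset.card_pair
      intro he
      exact hs' (congrArg Prod.snd he).symm
    rw [← hc]
    exact Finset.card_le_card hsub
  have hAc : 2 * A.card < F.card := by
    rcases A.eq_empty_or_nonempty with he | hAne
    · rw [he]; simpa using hne.card_pos
    · have h2 : ∑ ρ ∈ A, 2 * Δ < ∑ ρ ∈ A, ∑ q ∈ F, |a q.1 q.2 ρ| :=
        Finset.sum_lt_sum_of_nonempty hAne (fun ρ hρ => (Finset.mem_filter.mp hρ).2)
      have h3 : ∑ ρ ∈ A, ∑ q ∈ F, |a q.1 q.2 ρ| ≤ ∑ q ∈ F, Δ := by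
        rw [Finset.sum_comm]
        refine Finset.sum_le_sum fun q _ => le_trans ?_ (hΔ q.1 q.2)
        exact Finset.sum_le_sum_of_subset_of_nonneg (Finset.subset_univ _)
          (fun _ _ _ => abs_nonneg _)
      obtain ⟨q0, _⟩ := hne
      have hΔ0 : 0 ≤ Δ := le_trans (Finset.sum_nonneg fun _ _ => abs_nonneg _) (hΔ q0.1 q0.2)
      simp only [Finset.sum_const, nsmul_eq_mul] at h2 h3
      have h4 : ((2 * A.card : ℕ) : ℝ) * Δ < (F.card : ℝ) * Δ := by push_cast; linarith
      exact_mod_cast lt_of_mul_lt_mul_right h4 hΔ0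
  obtain ⟨v, hv0, hv⟩ := exists_kernel (α := F) (β := A ⊕ J)
    (fun b q => Sum.elim (fun ρ : A => a q.1.1 q.1.2 ρ.1)
      (fun i : J => if q.1.1 = i.1 then (1:ℝ) else 0) b)
    (by simp only [Fintype.card_sum, Fintype.card_coe]; omega)
  let d : I → S → ℝ := fun i s => if h : (i, s) ∈ F then v ⟨(i, s), h⟩ else 0
  have hsum : ∀ g : I × S → ℝ, ∑ i, ∑ s, d i s * g (i, s) = ∑ q : F, g q.1 * v q := by
    intro g
    rw [← Fintype.sum_prod_type' (fun i s => d i s * g (i, s))]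
    rw [← Finset.sum_subset (Finset.subset_univ F) (f := fun q : I × S => d q.1 q.2 * g (q.1, q.2))]
    · rw [← Finset.sum_coe_sort F]
      refine Finset.sum_congr rfl fun q _ => ?_
      have : d q.1.1 q.1.2 = v q := by simp [d]
      rw [this, mul_comm]
    · intro q _ hq
      have : d q.1 q.2 = 0 := by simp [d, hq]
      rw [this, zero_mul]
  have hrow : ∀ i, ∑ s, d i s = 0 := by
    intro i
    by_cases hi : i ∈ J
    · have h2 := hv (Sum.inr ⟨i, hi⟩)
      have h3 := hsum (fun q => if q.1 = i then 1 else 0)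
      simp only [Sum.elim_inr] at h2
      rw [h2] at h3
      rw [← h3, Finset.sum_eq_single i]
      · simp
      · intro b _ hb; simp [hb]
      · simp
    · apply Finset.sum_eq_zero
      intro s _
      have : (i, s) ∉ F := fun h => hi (Finset.mem_image.mpr ⟨_, h, rfl⟩)
      simp [d, this]
  refine ⟨d, fun i s h => by simp [d, h], ?_, hrow, ?_⟩
  · by_contra hc
    push Not at hc
    apply hv0
    funext q
    have h2 := (Finset.sum_eq_zero_iff_of_nonneg (fun s _ => hc q.1.1 s)).mp (hrow q.1.1) q.1.2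
      (Finset.mem_univ _)
    simpa [d] using h2
  · intro ρ hρ
    have h2 := hv (Sum.inl ⟨ρ, Finset.mem_filter.mpr ⟨Finset.mem_univ _, hρ⟩⟩)
    have h3 := hsum (fun q => a q.1 q.2 ρ)
    simp only [Sum.elim_inl] at h2
    rw [h3, h2]

theorem beck_fiala (a : I → S → R → ℝ) (Δ : ℝ) (hΔ0 : 0 ≤ Δ) (hΔ : ∀ i s, ∑ ρ, |a i s ρ| ≤ Δ)
    (n : ℕ) : ∀ (x : I → S → ℝ), (∀ i s, 0 ≤ x i s) → (∀ i, ∑ s, x i s = 1) →
      (Finset.univ.filter (fun q : I × S => 0 < x q.1 q.2)).card = n →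
      ∃ σ : I → S, (∀ i, 0 < x i (σ i)) ∧
        ∀ ρ, |∑ i, a i (σ i) ρ - ∑ i, ∑ s, x i s * a i s ρ| ≤ 2 * Δ := by
  classical
  induction n using Nat.strong_induction_on with
  | _ n ih =>
  intro x h0 h1 hn
  set F : Finset (I × S) := Finset.univ.filter (fun q => 0 < x q.1 q.2 ∧ x q.1 q.2 < 1) with hFd
  have hF : ∀ q : I × S, q ∈ F ↔ 0 < x q.1 q.2 ∧ x q.1 q.2 < 1 := by simp [hFd]
  rcases F.eq_empty_or_nonempty with he | hne
  · have : ∀ i, ∃ s, 0 < x i s := by
      intro i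
      by_contra hc
      push Not at hc
      have : ∑ s, x i s ≤ 0 := Finset.sum_nonpos fun s _ => hc s
      linarith [h1 i]
    choose σ hσ using this
    refine ⟨σ, hσ, fun ρ => ?_⟩
    have := direct_bound (fun i s => a i s ρ) x h0 h1 σ hσ F (fun q h h' => (hF q).mpr ⟨h, h'⟩)
    rw [he, Finset.sum_empty] at this
    linarith
  · obtain ⟨d, hd0, ⟨i0, s0, hneg⟩, hrow, hact⟩ := exists_dir a Δ hΔ x h0 h1 F hF hne
    obtain ⟨q, hq, hmin⟩ := Finset.exists_min_image
      (Finset.univ.filter (fun q : I × S => d q.1 q.2 < 0)) (fun q => x q.1 q.2 / (- d q.1 q.2))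
      ⟨(i0, s0), by simpa using hneg⟩
    have hqn : d q.1 q.2 < 0 := by simpa using hq
    have hqF : q ∈ F := by
      by_contra hc
      have := hd0 q.1 q.2 hc
      linarith
    have hqp := ((hF q).mp hqF).1
    set τ := x q.1 q.2 / (- d q.1 q.2) with hτ
    have hτ0 : 0 < τ := div_pos hqp (by linarith)
    let x' : I → S → ℝ := fun i s => x i s + τ * d i s
    have h0' : ∀ i s, 0 ≤ x' i s := by
      intro i s
      by_cases hn : d i s < 0
      · have h2 := hmin (i, s) (by simpa using hn)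
        simp only at h2
        rw [le_div_iff₀ (by linarith)] at h2
        simp only [x']; linarith
      · have := mul_nonneg hτ0.le (not_lt.mp hn)
        simp only [x']; linarith [h0 i s]
    have h1' : ∀ i, ∑ s, x' i s = 1 := by
      intro i
      simp only [x', Finset.sum_add_distrib, ← Finset.mul_sum, hrow, h1]; simp
    have hsup : ∀ i s, 0 < x' i s → 0 < x i s := by
      intro i s h
      by_contra hc
      have h2 : (i, s) ∉ F := fun h' => hc ((hF _).mp h').1
      have h3 := hd0 i s h2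
      simp only [x', h3, mul_zero, add_zero] at h
      exact hc h
    have hlt : (Finset.univ.filter (fun q : I × S => 0 < x' q.1 q.2)).card < n := by
      rw [← hn]
      apply Finset.card_lt_card
      refine ⟨fun y hy => ?_, fun hs => ?_⟩
      · simp only [Finset.mem_filter, Finset.mem_univ, true_and] at hy ⊢
        exact hsup _ _ hy
      · have h2 := hs (show q ∈ _ by simpa using hqp)
        simp only [Finset.mem_filter, Finset.mem_univ, true_and, x'] at h2
        have h3 : τ * d q.1 q.2 = - x q.1 q.2 := by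
          rw [hτ]; field_simp [hqn.ne]
        linarith
    obtain ⟨σ, hσ, hb⟩ := ih _ hlt x' h0' h1' rfl
    refine ⟨σ, fun i => hsup _ _ (hσ i), fun ρ => ?_⟩
    by_cases hρ : 2 * Δ < ∑ q ∈ F, |a q.1 q.2 ρ|
    · have h2 := hb ρ
      have h3 : ∑ i, ∑ s, x' i s * a i s ρ = ∑ i, ∑ s, x i s * a i s ρ := by
        simp only [x', add_mul, Finset.sum_add_distrib, mul_assoc, ← Finset.mul_sum, hact ρ hρ]
        simp
      rwa [h3] at h2
    · exact (direct_bound (fun i s => a i s ρ) x h0 h1 σ (fun i => hsup _ _ (hσ i)) F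
        (fun q h h' => (hF q).mpr ⟨h, h'⟩)).trans (not_lt.mp hρ)

end

end Pool.Agent.Lib.MP_debb99_co.Up
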