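import Mathlib

/- Weighted ball carving at one scale in a finite integer pseudometric. -/

set_option autoImplicit false
set_option linter.unusedSectionVars false
set_option linter.unusedVariables false

namespace Pool.Agent.Lib.MP_debb99_co.Up

open Finset

/-- An integer valued pseudometric. -/
structure PM (V : Type) where
  d : V → V → ℕ
  refl : ∀ x, d x x = 0
  symm : ∀ x y, d x y = d y x
  tri : ∀ x y z, d x z ≤ d x y + d y z

namespace PM

variable {V : Type} [Fintype V] [DecidableEq V] (P : PM V)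

/-- Closed ball. -/
def ball (z : V) (u : ℕ) : Finset V := Finset.univ.filter (fun x => P.d z x ≤ u)

/-- Neighbourhood of a set. -/
def nb (A : Finset V) (u : ℕ) : Finset V := Finset.univ.filter (fun x => ∃ a ∈ A, P.d a x ≤ u)

omit [DecidableEq V] in
theorem mem_ball {z x : V} {u : ℕ} : x ∈ P.ball z u ↔ P.d z x ≤ u := by simp [ball]

theorem mem_nb {A : Finset V} {x : V} {u : ℕ} : x ∈ P.nb A u ↔ ∃ a ∈ A, P.d a x ≤ u := by
  simp [nb]

omit [DecidableEq V] in
theorem self_mem_ball (z : V) (u : ℕ) : z ∈ P.ball z u := by simp [mem_ball, P.refl]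

omit [DecidableEq V] in
theorem ball_pos (z : V) (u : ℕ) : 0 < (P.ball z u).card :=
  Finset.card_pos.mpr ⟨z, P.self_mem_ball z u⟩

omit [DecidableEq V] in
theorem ball_subset {z y : V} {u u' : ℕ} (h : P.d z y + u ≤ u') : P.ball z u ⊆ P.ball y u' := by
  intro x hx
  rw [mem_ball] at hx ⊢
  have := P.tri y z x
  rw [P.symm y z] at this
  omega

theorem subset_nb (A : Finset V) (u : ℕ) : A ⊆ P.nb A u :=
  fun x hx => P.mem_nb.mpr ⟨x, hx, by simp [P.refl]⟩

theorem nb_nb (A : Finset V) (u u' : ℕ) : P.nb (P.nb A u) u' ⊆ P.nb A (u + u') := by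
  intro x hx
  obtain ⟨y, hy, h1⟩ := P.mem_nb.mp hx
  obtain ⟨a, ha, h2⟩ := P.mem_nb.mp hy
  exact P.mem_nb.mpr ⟨a, ha, by have := P.tri a y x; omega⟩

theorem nb_mono (A : Finset V) {u u' : ℕ} (h : u ≤ u') : P.nb A u ⊆ P.nb A u' := by
  intro x hx
  obtain ⟨a, ha, h2⟩ := P.mem_nb.mp hx
  exact P.mem_nb.mpr ⟨a, ha, by omega⟩

theorem nb_ball (z : V) (u u' : ℕ) : P.nb (P.ball z u) u' ⊆ P.ball z (u + u') := by
  intro x hx
  obtain ⟨y, hy, h1⟩ := P.mem_nb.mp hx
  rw [mem_ball] at hy ⊢
  have := P.tri z y x; omega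

/-- The slope budget of a point at scale w. -/
def sl (w : ℕ) (x : V) : ℕ :=
  6 * (3 + Nat.log 2 (P.ball x (32 * w)).card - Nat.log 2 (P.ball x w).card)

omit [DecidableEq V] in
theorem grow (Vf : ℕ → ℝ) (lam : ℕ) (hl : 0 < lam) (b : ℝ) (hb : 0 < b) (h0 : b ≤ Vf 0)
    (hN : Vf (6 * lam) < 2 ^ lam * b) : ∃ m, m < 6 * lam ∧ Vf (m + 1) ≤ 9 / 8 * Vf m := by
  by_contra hc
  push Not at hc
  have h1 : ∀ m, m ≤ 6 * lam → (9 / 8 : ℝ) ^ m * b ≤ Vf m := by
    intro m
    induction m with
    | zero => intro _; simpa using h0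
    | succ m ih =>
      intro hm
      have h2 := ih (by omega)
      have h3 := hc m (by omega)
      rw [pow_succ]; nlinarith
  have h2 := h1 _ le_rfl
  have h3 : (2:ℝ) ^ lam ≤ (9 / 8) ^ (6 * lam) := by
    rw [pow_mul]
    exact pow_le_pow_left₀ (by norm_num) (by norm_num) _
  have := mul_le_mul_of_nonneg_right h3 hb.le
  linarith

theorem choose_radius (w : ℕ) (W : V → ℝ) (hW0 : ∀ x, 0 ≤ W x) (U : Finset V) (z : V)
    (hW : ∑ x ∈ P.ball z (6 * w), W x ≤ 3 * (P.ball z (18 * w)).card) :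
    ∃ N R s : ℕ, N = 6 * (3 + Nat.log 2 (P.ball z (18 * w)).card - Nat.log 2 (P.ball z w).card) ∧
      2 * w ≤ R ∧ R + s ≤ 6 * w ∧ (∀ k, N * k < 2 * w → k ≤ s) ∧
      ∑ x ∈ U.filter (fun x => R < P.d z x + s ∧ P.d z x ≤ R + s), W x ≤
        (∑ x ∈ U.filter (fun x => P.d z x ≤ R), W x + (P.ball z w).card) / 8 := by
  set lam := 3 + Nat.log 2 (P.ball z (18 * w)).card - Nat.log 2 (P.ball z w).card with hlam
  have hsub : P.ball z w ⊆ P.ball z (18 * w) := P.ball_subset (by rw [P.refl]; omega)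
  have hcard := Finset.card_le_card hsub
  have hlog : Nat.log 2 (P.ball z w).card ≤ Nat.log 2 (P.ball z (18 * w)).card :=
    Nat.log_mono_right hcard
  have hl : 0 < lam := by omega
  obtain ⟨s, hs⟩ : ∃ s, s = 2 * w / (6 * lam) := ⟨_, rfl⟩
  have hsN : s * (6 * lam) ≤ 2 * w := hs ▸ Nat.div_mul_le_self _ _
  have hb : (0:ℝ) < (P.ball z w).card := by exact_mod_cast P.ball_pos z w
  let Vf : ℕ → ℝ := fun m =>
    ∑ x ∈ U.filter (fun x => P.d z x ≤ 2 * w + 2 * m * s), W x + (P.ball z w).card
  obtain ⟨m, hm, hV⟩ := grow Vf lam hl _ hb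
    (by simp only [Vf]; linarith [Finset.sum_nonneg (fun x (_ : x ∈ U.filter
      (fun x => P.d z x ≤ 2 * w + 2 * 0 * s)) => hW0 x)])
    (by
      have h1 : ∑ x ∈ U.filter (fun x => P.d z x ≤ 2 * w + 2 * (6 * lam) * s), W x ≤
          ∑ x ∈ P.ball z (6 * w), W x := by
        apply Finset.sum_le_sum_of_subset_of_nonneg _ (fun x _ _ => hW0 x)
        intro x hx
        rw [mem_ball]
        have := (Finset.mem_filter.mp hx).2
        nlinarith
      have h2 : (P.ball z (18 * w)).card < 2 ^ (Nat.log 2 (P.ball z (18 * w)).card + 1) :=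
        Nat.lt_pow_succ_log_self (by norm_num) _
      have h3 : 2 ^ Nat.log 2 (P.ball z w).card ≤ (P.ball z w).card :=
        Nat.pow_log_le_self 2 (P.ball_pos z w).ne'
      have h4 : 4 * (P.ball z (18 * w)).card < 2 ^ lam * (P.ball z w).card := by
        calc 4 * (P.ball z (18 * w)).card
            < 4 * 2 ^ (Nat.log 2 (P.ball z (18 * w)).card + 1) := by omega
          _ = 2 ^ lam * 2 ^ Nat.log 2 (P.ball z w).card := by
              rw [← pow_add, show 4 = 2 ^ 2 by norm_num, ← pow_add]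
              congr 1; omega
          _ ≤ _ := Nat.mul_le_mul_left _ h3
      have h5 : (4 : ℝ) * (P.ball z (18 * w)).card < 2 ^ lam * (P.ball z w).card := by
        exact_mod_cast h4
      have h6 : ((P.ball z w).card : ℝ) ≤ (P.ball z (18 * w)).card := by exact_mod_cast hcard
      simp only [Vf]; linarith)
  refine ⟨6 * lam, 2 * w + (2 * m + 1) * s, s, rfl, by omega, by nlinarith, ?_, ?_⟩
  · intro k hk
    rw [hs, Nat.le_div_iff_mul_le (by omega)]
    rw [mul_comm]; exact hk.le
  · clear hs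
    obtain ⟨t, ht⟩ : ∃ t, t = m * s := ⟨_, rfl⟩
    have e1 : (2 * m + 1) * s = 2 * t + s := by rw [ht]; ring
    have e2 : 2 * (m + 1) * s = 2 * t + s + s := by rw [ht]; ring
    have e3 : 2 * m * s = 2 * t := by rw [ht]; ring
    have h1 : ∑ x ∈ U.filter (fun x => 2 * w + (2 * m + 1) * s < P.d z x + s ∧
          P.d z x ≤ 2 * w + (2 * m + 1) * s + s), W x +
        ∑ x ∈ U.filter (fun x => P.d z x ≤ 2 * w + 2 * m * s), W x =
        ∑ x ∈ U.filter (fun x => P.d z x ≤ 2 * w + 2 * (m + 1) * s), W x := by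
      rw [← Finset.sum_union]
      · congr 1
        ext x
        simp only [Finset.mem_union, Finset.mem_filter]
        rw [e1, e2, e3]
        constructor
        · rintro (⟨h, h1, h2⟩ | ⟨h, h1⟩)
          · exact ⟨h, by omega⟩
          · exact ⟨h, by omega⟩
        · rintro ⟨h, h1⟩
          by_cases h2 : P.d z x ≤ 2 * w + 2 * t
          · exact Or.inr ⟨h, h2⟩
          · exact Or.inl ⟨h, by omega, by omega⟩
      · rw [Finset.disjoint_left]
        intro x hx hx'
        have h1 := (Finset.mem_filter.mp hx).2.1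
        have h2 := (Finset.mem_filter.mp hx').2
        rw [e1] at h1
        rw [e3] at h2
        omega
    have h2 : ∑ x ∈ U.filter (fun x => P.d z x ≤ 2 * w + 2 * m * s), W x ≤
        ∑ x ∈ U.filter (fun x => P.d z x ≤ 2 * w + (2 * m + 1) * s), W x := by
      apply Finset.sum_le_sum_of_subset_of_nonneg _ (fun x _ _ => hW0 x)
      intro x hx
      rw [Finset.mem_filter] at hx ⊢
      rw [e3] at hx
      rw [e1]
      exact ⟨hx.1, by omega⟩
    simp only [Vf] at hV
    linarith

theorem carve (w : ℕ) (W : V → ℝ) (hW0 : ∀ x, 0 ≤ W x)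
    (hW : ∀ z, ∑ x ∈ P.ball z (6 * w), W x ≤ 3 * (P.ball z (18 * w)).card) (U : Finset V) :
    ∃ (c : V → V) (h : V → ℕ), (∀ x ∈ U, P.d (c x) x ≤ 6 * w) ∧
      (∀ σ : V → ℕ, (∀ z, σ z ≤ 2 * w) → ∀ x ∈ U, ∀ y ∈ U, P.d x y ≤ 1 →
        min (σ (c x)) (h x) ≤ min (σ (c y)) (h y) + P.sl w x + P.sl w y) ∧
      ∀ A : Finset V, ∑ x ∈ (A ∩ U).filter (fun x => h x < 2 * w), W x ≤
        (∑ x ∈ U ∩ P.nb A (12 * w), W x + (P.nb A (7 * w) ∩ P.nb U w).card) / 8 := by
  induction U using Finset.strongInduction with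
  | H U ih =>
  rcases U.eq_empty_or_nonempty with rfl | hne
  · refine ⟨id, fun _ => 0, by simp, by simp, fun A => ?_⟩
    simp only [Finset.inter_empty, Finset.filter_empty, Finset.sum_empty, Finset.empty_inter]
    positivity
  obtain ⟨z, hz, hmax⟩ := Finset.exists_max_image U (fun x => (P.ball x w).card) hne
  obtain ⟨N, R, s, hN, hR1, hR2, hs, hshell⟩ := P.choose_radius w W hW0 U z (hW z)
  set U' := U.filter (fun x => ¬ P.d z x ≤ R) with hU'
  have hlt : U' ⊂ U := by
    refine ⟨Finset.filter_subset _ _, fun hsub => ?_⟩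
    have := (Finset.mem_filter.mp (hsub hz)).2
    rw [P.refl] at this
    omega
  obtain ⟨c', h', hc', hlip', hwt'⟩ := ih U' hlt
  have hNle : ∀ y ∈ U, P.d z y ≤ 6 * w → N ≤ P.sl w y := by
    intro y hy hd
    rw [hN, sl]
    have h1 : Nat.log 2 (P.ball z (18 * w)).card ≤ Nat.log 2 (P.ball y (32 * w)).card :=
      Nat.log_mono_right (Finset.card_le_card (P.ball_subset (by omega)))
    have h2 : Nat.log 2 (P.ball y w).card ≤ Nat.log 2 (P.ball z w).card :=
      Nat.log_mono_right (hmax y hy)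
    omega
  refine ⟨fun x => if P.d z x ≤ R then z else c' x,
    fun x => if P.d z x ≤ R then N * (R + 1 - P.d z x) else min (h' x) (N * (P.d z x - R)),
    ?_, ?_, ?_⟩
  · intro x hx
    by_cases hxR : P.d z x ≤ R
    · simp only [hxR, if_true]; omega
    · simp only [hxR, if_false]
      exact hc' x (Finset.mem_filter.mpr ⟨hx, hxR⟩)
  · intro σ hσ x hx y hy hxy
    have t1 := P.tri z x y
    have t2 := P.tri z y x
    rw [P.symm y x] at t2
    by_cases hxR : P.d z x ≤ R <;> by_cases hyR : P.d z y ≤ R <;>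
      simp only [hxR, hyR, if_true, if_false]
    · have h1 := hNle y hy (by omega)
      have h2 : N * (R + 1 - P.d z x) ≤ N * (R + 1 - P.d z y) + N := by
        rw [← Nat.mul_succ]; exact Nat.mul_le_mul_left _ (by omega)
      omega
    · have h1 := hNle x hx (by omega)
      have h2 : N * (R + 1 - P.d z x) ≤ N * 1 := Nat.mul_le_mul_left _ (by omega)
      omega
    · have h1 := hNle y hy (by omega)
      have h2 : N * (P.d z x - R) ≤ N * 1 := Nat.mul_le_mul_left _ (by omega)
      omega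
    · have h1 := hlip' σ hσ x (Finset.mem_filter.mpr ⟨hx, hxR⟩) y
        (Finset.mem_filter.mpr ⟨hy, hyR⟩) hxy
      by_cases h3 : N * (P.d z y - R) < 2 * w
      · have h4 := hs _ h3
        have h5 := hNle y hy (by omega)
        have h2 : N * (P.d z x - R) ≤ N * (P.d z y - R) + N := by
          rw [← Nat.mul_succ]; exact Nat.mul_le_mul_left _ (by omega)
        omega
      · have := hσ (c' y)
        omega
  · intro A
    set Sh := U.filter (fun x => R < P.d z x + s ∧ P.d z x ≤ R + s) with hSh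
    have hsub : (A ∩ U).filter (fun x => (if P.d z x ≤ R then N * (R + 1 - P.d z x)
        else min (h' x) (N * (P.d z x - R))) < 2 * w) ⊆
        (A ∩ Sh) ∪ (A ∩ U').filter (fun x => h' x < 2 * w) := by
      intro x hx
      simp only [Finset.mem_filter, Finset.mem_inter, Finset.mem_union, hSh, hU'] at hx ⊢
      obtain ⟨⟨hA, hU⟩, hh⟩ := hx
      by_cases hxR : P.d z x ≤ R
      · rw [if_pos hxR] at hh
        have := hs _ hh
        exact Or.inl ⟨hA, hU, by omega, by omega⟩
      · rw [if_neg hxR] at hh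
        by_cases h3 : N * (P.d z x - R) < 2 * w
        · have := hs _ h3
          exact Or.inl ⟨hA, hU, by omega, by omega⟩
        · exact Or.inr ⟨⟨hA, hU, hxR⟩, by omega⟩
    have h1 : ∑ x ∈ (A ∩ U).filter (fun x => (if P.d z x ≤ R then N * (R + 1 - P.d z x)
        else min (h' x) (N * (P.d z x - R))) < 2 * w), W x ≤
        ∑ x ∈ A ∩ Sh, W x + ∑ x ∈ (A ∩ U').filter (fun x => h' x < 2 * w), W x := by
      refine (Finset.sum_le_sum_of_subset_of_nonneg hsub (fun x _ _ => hW0 x)).trans ?_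
      rw [← Finset.sum_union_inter]
      have := Finset.sum_nonneg (fun x (_ : x ∈ (A ∩ Sh) ∩
        (A ∩ U').filter (fun x => h' x < 2 * w)) => hW0 x)
      linarith
    refine h1.trans ?_
    have h2 := hwt' A
    have hnbU : P.nb U' w ⊆ P.nb U w := by
      intro x hx
      obtain ⟨a, ha, h⟩ := P.mem_nb.mp hx
      exact P.mem_nb.mpr ⟨a, hlt.1 ha, h⟩
    rcases (A ∩ Sh).eq_empty_or_nonempty with he | ⟨a, ha⟩
    · rw [he, Finset.sum_empty, zero_add]
      refine h2.trans ?_
      have h3 : ∑ x ∈ U' ∩ P.nb A (12 * w), W x ≤ ∑ x ∈ U ∩ P.nb A (12 * w), W x :=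
        Finset.sum_le_sum_of_subset_of_nonneg (Finset.inter_subset_inter_right hlt.1)
          (fun x _ _ => hW0 x)
      have h4 : ((P.nb A (7 * w) ∩ P.nb U' w).card : ℝ) ≤ (P.nb A (7 * w) ∩ P.nb U w).card := by
        exact_mod_cast Finset.card_le_card (Finset.inter_subset_inter_left hnbU)
      linarith
    · obtain ⟨haA, haS⟩ := Finset.mem_inter.mp ha
      have had : P.d z a ≤ 6 * w := by
        have := (Finset.mem_filter.mp haS).2.2; omega
      have h3 : ∑ x ∈ A ∩ Sh, W x ≤ ∑ x ∈ Sh, W x :=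
        Finset.sum_le_sum_of_subset_of_nonneg Finset.inter_subset_right (fun x _ _ => hW0 x)
      have h4 : ∑ x ∈ U.filter (fun x => P.d z x ≤ R), W x + ∑ x ∈ U' ∩ P.nb A (12 * w), W x ≤
          ∑ x ∈ U ∩ P.nb A (12 * w), W x := by
        rw [← Finset.sum_union]
        · apply Finset.sum_le_sum_of_subset_of_nonneg _ (fun x _ _ => hW0 x)
          intro x hx
          rcases Finset.mem_union.mp hx with hx | hx
          · rw [Finset.mem_filter] at hx
            refine Finset.mem_inter.mpr ⟨hx.1, P.mem_nb.mpr ⟨a, haA, ?_⟩⟩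
            have := P.tri a z x
            rw [P.symm a z] at this
            omega
          · exact Finset.inter_subset_inter_right hlt.1 hx
        · rw [Finset.disjoint_left]
          intro x hx hx'
          exact (Finset.mem_filter.mp (Finset.mem_inter.mp hx').1).2 (Finset.mem_filter.mp hx).2
      have h5 : (P.ball z w).card + (P.nb A (7 * w) ∩ P.nb U' w).card ≤
          (P.nb A (7 * w) ∩ P.nb U w).card := by
        rw [← Finset.card_union_of_disjoint]
        · apply Finset.card_le_card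
          intro x hx
          rcases Finset.mem_union.mp hx with hx | hx
          · rw [mem_ball] at hx
            refine Finset.mem_inter.mpr ⟨P.mem_nb.mpr ⟨a, haA, ?_⟩, P.mem_nb.mpr ⟨z, hz, hx⟩⟩
            have := P.tri a z x
            rw [P.symm a z] at this
            omega
          · exact Finset.inter_subset_inter_left hnbU hx
        · rw [Finset.disjoint_left]
          intro x hx hx'
          rw [mem_ball] at hx
          obtain ⟨u, hu, hd⟩ := P.mem_nb.mp (Finset.mem_inter.mp hx').2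
          have h6 := (Finset.mem_filter.mp hu).2
          have := P.tri z x u
          rw [P.symm x u] at this
          omega
      have h6 : ((P.ball z w).card : ℝ) + (P.nb A (7 * w) ∩ P.nb U' w).card ≤
          (P.nb A (7 * w) ∩ P.nb U w).card := by exact_mod_cast h5
      linarith

end PM

end Pool.Agent.Lib.MP_debb99_co.Up
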