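import Pool.Agent.Lib.MP_debb99_co.UpBF

/- Grid sums, dyadic second differences and rounding in the sup norm. -/

set_option autoImplicit false

namespace Pool.Agent.Lib.MP_debb99_co.Up

open Finset

/-- Sums of absolute values along any finite part of any progression of step u are at most B. -/
def GS (g : ℤ → ℝ) (u : ℕ) (B : ℝ) : Prop :=
  ∀ (c : ℤ) (T : Finset ℤ), ∑ j ∈ T, |g (c + u * j)| ≤ B

/-- Second difference with step u. -/
def D2 (u : ℕ) (g : ℤ → ℝ) : ℤ → ℝ := fun p => g (p + u) - 2 * g p + g (p - u)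

theorem GS.mono {g : ℤ → ℝ} {u : ℕ} {B B' : ℝ} (h : GS g u B) (hB : B ≤ B') : GS g u B' :=
  fun c T => (h c T).trans hB

theorem GS.nonneg {g : ℤ → ℝ} {u : ℕ} {B : ℝ} (h : GS g u B) : 0 ≤ B := by
  simpa using h 0 ∅

theorem GS.shift {g : ℤ → ℝ} {u : ℕ} {B : ℝ} (h : GS g u B) (a : ℤ) :
    GS (fun p => g (p - a)) u B := by
  intro c T
  have := h (c - a) T
  refine le_trans (le_of_eq (Finset.sum_congr rfl fun j _ => ?_)) this
  congr 2; ring

theorem GS.sum {ι : Type} (s : Finset ι) (g : ι → ℤ → ℝ) (u : ℕ) (B : ι → ℝ)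
    (h : ∀ i ∈ s, GS (g i) u (B i)) : GS (fun p => ∑ i ∈ s, g i p) u (∑ i ∈ s, B i) := by
  intro c T
  calc ∑ j ∈ T, |∑ i ∈ s, g i (c + u * j)| ≤ ∑ j ∈ T, ∑ i ∈ s, |g i (c + u * j)| :=
        Finset.sum_le_sum fun j _ => Finset.abs_sum_le_sum_abs _ _
    _ = ∑ i ∈ s, ∑ j ∈ T, |g i (c + u * j)| := Finset.sum_comm
    _ ≤ _ := Finset.sum_le_sum fun i hi => h i hi c T

theorem GS.smul {g : ℤ → ℝ} {u : ℕ} {B : ℝ} (h : GS g u B) (r : ℝ) (hr : 0 ≤ r) :
    GS (fun p => r * g p) u (r * B) := by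
  intro c T
  simp only [abs_mul, abs_of_nonneg hr, ← Finset.mul_sum]
  exact mul_le_mul_of_nonneg_left (h c T) hr

theorem GS.two {g : ℤ → ℝ} {u : ℕ} {B : ℝ} (h : GS g u B) (c : ℤ) (T : Finset ℤ) :
    ∑ j ∈ T, |g (c + (2 * u : ℕ) * j)| + ∑ j ∈ T, |g (c + (2 * u : ℕ) * j + u)| ≤ B := by
  classical
  have h1 := h c (T.image (fun j => 2 * j) ∪ T.image (fun j => 2 * j + 1))
  rw [Finset.sum_union, Finset.sum_image, Finset.sum_image] at h1
  · refine le_trans (le_of_eq ?_) h1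
    congr 1
    · refine Finset.sum_congr rfl fun j _ => ?_
      congr 2; push_cast; ring
    · refine Finset.sum_congr rfl fun j _ => ?_
      congr 2; push_cast; ring
  · intro a _ b _ hab; simp only at hab; omega
  · intro a _ b _ hab; simp only at hab; omega
  · rw [Finset.disjoint_left]
    intro a ha hb
    obtain ⟨x, _, rfl⟩ := Finset.mem_image.mp ha
    obtain ⟨y, _, hy⟩ := Finset.mem_image.mp hb
    omega

theorem GS.coarsen {g : ℤ → ℝ} {u : ℕ} {B : ℝ} (h : GS g u B) : GS g (2 * u) B := by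
  intro c T
  have h1 := h.two c T
  have h2 : 0 ≤ ∑ j ∈ T, |g (c + (2 * u : ℕ) * j + u)| :=
    Finset.sum_nonneg fun _ _ => abs_nonneg _
  linarith

theorem GS.d2_double {g : ℤ → ℝ} {u : ℕ} {B : ℝ} (h : GS (D2 u g) u B) :
    GS (D2 (2 * u) g) (2 * u) (2 * B) := by
  intro c T
  have h1 := h.two c T
  have h2 := h.two (c - u) T
  have h3 : ∀ p : ℤ, |D2 (2 * u) g p| ≤
      |D2 u g p| + |D2 u g (p + u)| + (|D2 u g (p - u)| + |D2 u g p|) := by
    intro p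
    have : D2 (2 * u) g p = D2 u g p + D2 u g (p + u) + (D2 u g (p - u) + D2 u g p) := by
      simp only [D2]
      have e1 : p + ((2 * u : ℕ) : ℤ) = p + u + u := by push_cast; ring
      have e2 : p - ((2 * u : ℕ) : ℤ) = p - u - u := by push_cast; ring
      rw [e1, e2, add_sub_cancel_right, sub_add_cancel]; ring
    rw [this]
    exact (abs_add_le _ _).trans (add_le_add (abs_add_le _ _) (abs_add_le _ _))
  have h4 : ∑ j ∈ T, |D2 (2 * u) g (c + (2 * u : ℕ) * j)| ≤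
      ∑ j ∈ T, (|D2 u g (c + (2 * u : ℕ) * j)| + |D2 u g (c + (2 * u : ℕ) * j + u)| +
        (|D2 u g (c - u + (2 * u : ℕ) * j)| + |D2 u g (c - u + (2 * u : ℕ) * j + u)|)) := by
    refine Finset.sum_le_sum fun j _ => (h3 _).trans (le_of_eq ?_)
    have e1 : c - u + (2 * u : ℕ) * j = c + (2 * u : ℕ) * j - u := by ring
    rw [e1, sub_add_cancel]
  simp only [Finset.sum_add_distrib] at h4
  linarith

theorem GS.d2_pow {g : ℤ → ℝ} {B : ℝ} (h : GS (D2 1 g) 1 B) (i : ℕ) :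
    GS (D2 (2 ^ i) g) (2 ^ i) (2 ^ i * B) := by
  induction i with
  | zero => simpa using h
  | succ i ih =>
    have := ih.d2_double
    rw [pow_succ', pow_succ', mul_assoc]
    exact this

theorem GS.box {g : ℤ → ℝ} {B : ℝ} (h : GS g 1 B) (i : ℕ) :
    GS (fun p => ∑ b ∈ range (2 ^ i), |g (p - b)|) (2 ^ i) B := by
  intro c T
  classical
  have h1 := h c ((T ×ˢ range (2 ^ i)).image (fun q : ℤ × ℕ => (2 ^ i : ℕ) * q.1 - (q.2 : ℤ)))
  rw [Finset.sum_image, Finset.sum_product] at h1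
  · refine le_trans (le_of_eq (Finset.sum_congr rfl fun j _ => ?_)) h1
    rw [abs_of_nonneg (Finset.sum_nonneg fun _ _ => abs_nonneg _)]
    refine Finset.sum_congr rfl fun b _ => ?_
    congr 2; push_cast; ring
  · rintro ⟨j, b⟩ hq ⟨j', b'⟩ hq' he
    simp only [Finset.coe_product, Set.mem_prod, Finset.mem_coe, Finset.mem_range] at hq hq'
    simp only at he
    set w : ℕ := 2 ^ i
    have hb : (b : ℤ) < w := by exact_mod_cast hq.2
    have hb' : (b' : ℤ) < w := by exact_mod_cast hq'.2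
    have h2 : (b : ℤ) - b' = 0 := by
      apply Int.eq_zero_of_abs_lt_dvd (m := (w : ℤ))
      · exact ⟨j - j', by linarith⟩
      · rw [abs_lt]; constructor <;> omega
    have h3 : b = b' := by omega
    subst h3
    have h4 : (w : ℤ) * j = w * j' := by linarith
    have h5 : (w : ℤ) ≠ 0 := by omega
    rw [mul_left_cancel₀ h5 h4]

theorem reconstruct (e : ℤ → ℝ) (T M : ℕ) (A : ℝ)
    (htop : ∀ j : ℕ, j < M + 2 → |e (0 + (2 ^ T : ℕ) * (j : ℤ))| ≤ A)
    (hlev : ∀ i, i < T → ∀ j : ℕ, j < M + 2 →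
      |(3 / 2 : ℝ) ^ (T - i) / 2 * D2 (2 ^ i) e ((2 ^ i : ℕ) + (2 * 2 ^ i : ℕ) * (j : ℤ))| ≤ A)
    (d : ℕ) : ∀ i, i + d = T → ∀ j : ℕ, 2 ^ i * j ≤ M + 2 ^ i →
      |e ((2 ^ i : ℕ) * (j : ℤ))| ≤ A * (3 - 2 * (2 / 3) ^ d) := by
  induction d with
  | zero =>
    intro i hi j hj
    have hT : i = T := by omega
    subst hT
    have hp : 1 ≤ 2 ^ i := Nat.one_le_two_pow
    have hj2 : j < M + 2 := by
      by_contra hc
      have : 2 ^ i * (M + 2) ≤ 2 ^ i * j := Nat.mul_le_mul_left _ (by omega)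
      nlinarith
    have := htop j hj2
    rw [zero_add] at this
    simpa [show (3:ℝ) - 2 = 1 by norm_num] using this
  | succ d ih =>
    intro i hi j hj
    have hA : 0 ≤ A := (abs_nonneg _).trans (htop 0 (by omega))
    have ih' := ih (i + 1) (by omega)
    have hp : 1 ≤ 2 ^ i := Nat.one_le_two_pow
    have hq : (0:ℝ) < (2 / 3) ^ d := by positivity
    obtain ⟨k, rfl | rfl⟩ := Nat.even_or_odd' j
    · have h1 := ih' k (by rw [pow_succ]; nlinarith)
      have e1 : ((2 ^ (i + 1) : ℕ) : ℤ) * (k : ℤ) = (2 ^ i : ℕ) * ((2 * k : ℕ) : ℤ) := by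
        push_cast; ring
      rw [e1] at h1
      refine h1.trans (mul_le_mul_of_nonneg_left ?_ hA)
      rw [pow_succ]; linarith
    · have h1 := ih' k (by rw [pow_succ]; nlinarith)
      have h2 := ih' (k + 1) (by rw [pow_succ]; nlinarith)
      have h3 := hlev i (by omega) k (by nlinarith)
      have e0 : T - i = d + 1 := by omega
      rw [e0] at h3
      set p : ℤ := (2 ^ i : ℕ) * ((2 * k + 1 : ℕ) : ℤ) with hp'
      have e1 : ((2 ^ (i + 1) : ℕ) : ℤ) * (k : ℤ) = p - (2 ^ i : ℕ) := by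
        rw [hp']; push_cast; ring
      have e2 : ((2 ^ (i + 1) : ℕ) : ℤ) * ((k + 1 : ℕ) : ℤ) = p + (2 ^ i : ℕ) := by
        rw [hp']; push_cast; ring
      have e3 : ((2 ^ i : ℕ) : ℤ) + (2 * 2 ^ i : ℕ) * (k : ℤ) = p := by
        rw [hp']; push_cast; ring
      rw [e1] at h1
      rw [e2] at h2
      rw [e3, abs_mul, abs_of_nonneg (by positivity)] at h3
      have h4 : |D2 (2 ^ i) e p| / 2 ≤ A * (2 / 3) ^ (d + 1) := by
        have h5 : (3 / 2 : ℝ) ^ (d + 1) * (2 / 3) ^ (d + 1) = 1 := by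
          rw [← mul_pow]; norm_num
        have h6 := mul_le_mul_of_nonneg_right h3 (show (0:ℝ) ≤ (2 / 3) ^ (d + 1) by positivity)
        calc |D2 (2 ^ i) e p| / 2
            = ((3 / 2 : ℝ) ^ (d + 1) * (2 / 3) ^ (d + 1)) * (|D2 (2 ^ i) e p| / 2) := by
              rw [h5, one_mul]
          _ = (3 / 2 : ℝ) ^ (d + 1) / 2 * |D2 (2 ^ i) e p| * (2 / 3) ^ (d + 1) := by ring
          _ ≤ _ := h6
      have h7 : e p = (e (p - (2 ^ i : ℕ)) + e (p + (2 ^ i : ℕ))) / 2 - D2 (2 ^ i) e p / 2 := by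
        simp only [D2]; ring
      rw [abs_le] at h1 h2 ⊢
      have h8 := abs_le.mp (show |D2 (2 ^ i) e p| ≤ 2 * (A * (2 / 3) ^ (d + 1)) by linarith)
      rw [pow_succ] at h8 ⊢
      constructor <;> nlinarith [h1.1, h1.2, h2.1, h2.2, h8.1, h8.2]

/-- The rows used in the rounding step. -/
noncomputable def row (T M : ℕ) (g : ℤ → ℝ) (ρ : Option (Fin T) × Fin (M + 2)) : ℝ :=
  match ρ.1 with
  | none => g (0 + (2 ^ T : ℕ) * ((ρ.2 : ℕ) : ℤ))
  | some i => (3 / 2 : ℝ) ^ (T - i) / 2 *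
      D2 (2 ^ (i : ℕ)) g ((2 ^ (i : ℕ) : ℕ) + (2 * 2 ^ (i : ℕ) : ℕ) * ((ρ.2 : ℕ) : ℤ))

theorem geo_bound (T : ℕ) : ∑ i ∈ range T, (3 / 2 : ℝ) ^ (T - i) / 2 * 2 ^ i ≤ 3 / 2 * 2 ^ T := by
  have : ∀ T : ℕ, ∑ i ∈ range T, (3 / 2 : ℝ) ^ (T - i) / 2 * 2 ^ i =
      3 / 2 * (2 ^ T - (3 / 2) ^ T) := by
    intro T
    induction T with
    | zero => simp
    | succ T ih =>
      rw [Finset.sum_range_succ]
      have : ∑ i ∈ range T, (3 / 2 : ℝ) ^ (T + 1 - i) / 2 * 2 ^ i =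
          3 / 2 * ∑ i ∈ range T, (3 / 2 : ℝ) ^ (T - i) / 2 * 2 ^ i := by
        rw [Finset.mul_sum]
        refine Finset.sum_congr rfl fun i hi => ?_
        have : T + 1 - i = (T - i) + 1 := by have := Finset.mem_range.mp hi; omega
        rw [this, pow_succ]; ring
      rw [this, ih, Nat.add_sub_cancel_left]; ring
  rw [this]
  have : (0:ℝ) ≤ (3 / 2) ^ T := by positivity
  linarith

theorem fin_sum_le {g : ℤ → ℝ} {u : ℕ} {B : ℝ} (h : GS g u B) (c : ℤ) (N : ℕ) :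
    ∑ j : Fin N, |g (c + u * ((j : ℕ) : ℤ))| ≤ B := by
  classical
  have h1 := h c ((Finset.univ : Finset (Fin N)).image (fun j : Fin N => ((j : ℕ) : ℤ)))
  rwa [Finset.sum_image] at h1
  intro a _ b _ hab
  simp only at hab
  exact Fin.ext (by omega)

theorem row_bound (T M : ℕ) (g : ℤ → ℝ) (B1 B2 : ℝ) (h1 : GS g (2 ^ T) B1)
    (h2 : GS (D2 1 g) 1 B2) : ∑ ρ, |row T M g ρ| ≤ B1 + 3 / 2 * 2 ^ T * B2 := by
  rw [Fintype.sum_prod_type, Fintype.sum_option]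
  apply add_le_add
  · exact fin_sum_le h1 0 _
  · calc ∑ i : Fin T, ∑ j : Fin (M + 2), |row T M g (some i, j)|
        ≤ ∑ i : Fin T, (3 / 2 : ℝ) ^ (T - i) / 2 * 2 ^ (i : ℕ) * B2 := by
          refine Finset.sum_le_sum fun i _ => ?_
          have h3 := fin_sum_le ((h2.d2_pow i).coarsen) (2 ^ (i : ℕ) : ℕ) (M + 2)
          have hp : (0:ℝ) ≤ (3 / 2 : ℝ) ^ (T - i) / 2 := by positivity
          simp only [row, abs_mul, abs_of_nonneg hp, ← Finset.mul_sum, mul_assoc]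
          exact mul_le_mul_of_nonneg_left h3 hp
      _ = (∑ i ∈ range T, (3 / 2 : ℝ) ^ (T - i) / 2 * 2 ^ i) * B2 := by
          rw [← Finset.sum_mul]
          congr 1
          exact Fin.sum_univ_eq_sum_range (fun i => (3 / 2 : ℝ) ^ (T - i) / 2 * 2 ^ i) T
      _ ≤ _ := mul_le_mul_of_nonneg_right (geo_bound T) h2.nonneg

theorem round_sup {I S : Type} [Fintype I] [Fintype S] (g : I → S → ℤ → ℝ)
    (x : S → ℝ) (hx0 : ∀ s, 0 ≤ x s) (hx1 : ∑ s, x s = 1) (T M : ℕ)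
    (B1 B2 : ℝ) (hB1 : 0 ≤ B1) (hB2 : 0 ≤ B2) (h1 : ∀ i s, GS (g i s) (2 ^ T) B1)
    (h2 : ∀ i s, GS (D2 1 (g i s)) 1 B2) :
    ∃ σ : I → S, ∀ p : ℕ, p ≤ M →
      ∑ i, g i (σ i) p ≤ ∑ i, ∑ s, x s * g i s p + 6 * (B1 + 3 / 2 * 2 ^ T * B2) := by
  obtain ⟨σ, -, hσ⟩ := beck_fiala (fun i s ρ => row T M (g i s) ρ) (B1 + 3 / 2 * 2 ^ T * B2)
    (by positivity) (fun i s => row_bound T M _ _ _ (h1 i s) (h2 i s)) _
    (fun _ s => x s) (fun _ s => hx0 s) (fun _ => hx1) rfl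
  refine ⟨σ, fun p hp => ?_⟩
  set e : ℤ → ℝ := fun p => ∑ i, g i (σ i) p - ∑ i, ∑ s, x s * g i s p with he
  have hrow : ∀ ρ, row T M e ρ =
      ∑ i, row T M (g i (σ i)) ρ - ∑ i, ∑ s, x s * row T M (g i s) ρ := by
    rintro ⟨_ | i, j⟩
    · simp only [row, he]
    · simp only [row, he, D2, mul_sub, mul_add, Finset.sum_add_distrib, Finset.sum_sub_distrib,
        Finset.mul_sum]
      have k : ∀ (c : ℝ) (q : ℤ), ∑ i, ∑ s, c * (x s * g i s q) = ∑ i, ∑ s, x s * (c * g i s q) :=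
        fun c q => Finset.sum_congr rfl fun _ _ => Finset.sum_congr rfl fun _ _ => by ring
      have k2 : ∀ (c : ℝ) (q : ℤ), ∑ i, ∑ s, c * (2 * (x s * g i s q)) =
          ∑ i, ∑ s, x s * (c * (2 * g i s q)) :=
        fun c q => Finset.sum_congr rfl fun _ _ => Finset.sum_congr rfl fun _ _ => by ring
      rw [k, k, k2]; ring
  have key := reconstruct e T M (2 * (B1 + 3 / 2 * 2 ^ T * B2))
    (fun j hj => by
      have := hσ (none, ⟨j, hj⟩)
      rw [← hrow] at this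
      exact this)
    (fun i hi j hj => by
      have := hσ (some ⟨i, hi⟩, ⟨j, hj⟩)
      rw [← hrow] at this
      exact this) T 0 (by omega) p (by simp; omega)
  have hq : (0:ℝ) < (2 / 3) ^ T := by positivity
  have h3 : (0:ℝ) ≤ B1 + 3 / 2 * 2 ^ T * B2 := by positivity
  simp only [pow_zero, Nat.cast_one, one_mul] at key
  have h4 := (abs_le.mp key).2
  simp only [he] at h4
  nlinarith

end Pool.Agent.Lib.MP_debb99_co.Up
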