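import Pool.Agent.Lib.MP_debb99_co.UpGrid
import Pool.Agent.Lib.MP_debb99_co.UpCarve

/- The multiscale construction: laws are built upwards, choices are rounded downwards. -/

set_option autoImplicit false
set_option linter.unusedSectionVars false
set_option linter.unusedVariables false

namespace Pool.Agent.Lib.MP_debb99_co.Up

open Finset

theorem GS.four {g : ℤ → ℝ} {u : ℕ} {B : ℝ} (h : GS g u B) (a b c : ℤ) :
    GS (fun p => g (p - a) - 2 * g (p - b) + g (p - c)) u (4 * B) := by
  intro c0 T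
  have h1 := h.shift a c0 T
  have h2 := h.shift b c0 T
  have h3 := h.shift c c0 T
  have h4 : ∑ j ∈ T, |g (c0 + u * j - a) - 2 * g (c0 + u * j - b) + g (c0 + u * j - c)| ≤
      ∑ j ∈ T, (|g (c0 + u * j - a)| + 2 * |g (c0 + u * j - b)| + |g (c0 + u * j - c)|) := by
    refine Finset.sum_le_sum fun j _ => ?_
    refine (abs_add_le _ _).trans (add_le_add ((abs_sub _ _).trans ?_) le_rfl)
    rw [abs_mul, abs_two]
  simp only [Finset.sum_add_distrib, ← Finset.mul_sum] at h4 h1 h2 h3 ⊢
  linarith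

theorem GS.congr {g g' : ℤ → ℝ} {u : ℕ} {B : ℝ} (h : GS g u B) (e : ∀ p, g' p = g p) :
    GS g' u B := by
  have : g' = g := funext e
  rwa [this]

theorem gs_delta : GS (fun p => if p = 0 then (1:ℝ) else 0) 1 1 := by
  intro c T
  have : ∀ j : ℤ, |(if c + ((1:ℕ):ℤ) * j = 0 then (1:ℝ) else 0)| = if j = -c then 1 else 0 := by
    intro j
    by_cases h : j = -c
    · rw [if_pos h, if_pos (by omega)]; simp
    · rw [if_neg h, if_neg (by omega)]; simp
  simp only [this]
  rw [Finset.sum_ite_eq']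
  split_ifs <;> norm_num

/-- One averaging step: the law of (old variable) + min (s1 + s2) h. -/
noncomputable def avg (w h : ℕ) (g : ℤ → ℝ) : ℤ → ℝ := fun p =>
  ∑ s : Fin w × Fin w, (1 / (w : ℝ) ^ 2) * g (p - (min ((s.1 : ℕ) + (s.2 : ℕ)) h : ℕ))

theorem wt_sum {w : ℕ} (hw : 0 < w) : ∑ _s : Fin w × Fin w, (1 / (w : ℝ) ^ 2) = 1 := by
  have : (w : ℝ) ≠ 0 := by positivity
  simp only [Finset.sum_const, Finset.card_univ, Fintype.card_prod, Fintype.card_fin, nsmul_eq_mul]
  push_cast; field_simp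

theorem GS.avg {g : ℤ → ℝ} {u : ℕ} {B : ℝ} (hg : GS g u B) {w : ℕ} (hw : 0 < w) (h : ℕ) :
    GS (avg w h g) u B := by
  have h1 := GS.sum Finset.univ (fun (s : Fin w × Fin w) p =>
      (1 / (w : ℝ) ^ 2) * g (p - (min ((s.1 : ℕ) + (s.2 : ℕ)) h : ℕ))) u
    (fun _ => (1 / (w : ℝ) ^ 2) * B) (fun s _ => (hg.shift _).smul _ (by positivity))
  rw [← Finset.sum_mul, wt_sum hw, one_mul] at h1
  exact h1

theorem d2_avg (w h : ℕ) (g : ℤ → ℝ) (p : ℤ) : D2 1 (avg w h g) p = avg w h (D2 1 g) p := by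
  simp only [D2, avg, Finset.mul_sum, ← Finset.sum_sub_distrib, ← Finset.sum_add_distrib]
  refine Finset.sum_congr rfl fun s _ => ?_
  rw [add_sub_right_comm, sub_right_comm]; ring

theorem avg_padded {w h : ℕ} (hh : 2 * w ≤ h) (g : ℤ → ℝ) (p : ℤ) :
    avg w h g p = ∑ a ∈ range w, (1 / (w : ℝ) ^ 2) * ∑ b ∈ range w, g (p - a - b) := by
  rw [avg, Fintype.sum_prod_type,
    ← Fin.sum_univ_eq_sum_range (fun a => (1 / (w : ℝ) ^ 2) * ∑ b ∈ range w, g (p - a - b)) w]
  refine Finset.sum_congr rfl fun a _ => ?_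
  rw [← Fin.sum_univ_eq_sum_range (fun b => g (p - (a : ℕ) - b)) w, Finset.mul_sum]
  refine Finset.sum_congr rfl fun b _ => ?_
  have : min ((a : ℕ) + (b : ℕ)) h = a + b := by have := a.2; have := b.2; omega
  simp only [this]
  congr 2; push_cast; ring

theorem tele (ν : ℤ → ℝ) (w : ℕ) (p : ℤ) :
    ∑ a ∈ range w, (ν (p + 1 - a) - ν (p - a)) = ν (p + 1) - ν (p + 1 - w) := by
  have := Finset.sum_range_sub' (fun i : ℕ => ν (p + 1 - i)) w
  simp only [Nat.cast_zero, sub_zero] at this
  rw [← this]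
  refine Finset.sum_congr rfl fun a _ => ?_
  congr 2; push_cast; ring

theorem d2_avg_padded {w h : ℕ} (hh : 2 * w ≤ h) (g : ℤ → ℝ) (p : ℤ) :
    D2 1 (avg w h g) p =
      (1 / (w : ℝ) ^ 2) * (g (p - (-1)) - 2 * g (p - (w - 1)) + g (p - (2 * w - 1))) := by
  set ν : ℤ → ℝ := fun q => ∑ b ∈ range w, g (q - b) with hν
  have h0 : ∀ q : ℤ, avg w h g q = (1 / (w : ℝ) ^ 2) * ∑ a ∈ range w, ν (q - a) := by
    intro q; rw [avg_padded hh, Finset.mul_sum]
  have h1 : ∀ q : ℤ, ν (q + 1) - ν q = g (q + 1) - g (q + 1 - w) := by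
    intro q
    rw [← tele g w q, Finset.sum_sub_distrib]
  have h2 := tele ν w p
  have h3 := tele ν w (p - 1)
  have h4 := h1 p
  have h5 := h1 (p - w)
  rw [Finset.sum_sub_distrib] at h2 h3
  simp only [D2, h0, Nat.cast_one, sub_add_cancel] at h2 h3 ⊢
  have e1 : p - (-1) = p + 1 := by ring
  have e2 : p - ((w : ℤ) - 1) = p + 1 - w := by ring
  have e3 : p - (2 * (w : ℤ) - 1) = p - w + 1 - w := by ring
  have e4 : p - (w : ℤ) + 1 = p + 1 - w := by ring
  rw [e1, e2, e3]
  rw [e4] at h5 ⊢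
  have : (∑ a ∈ range w, ν (p + 1 - a)) - 2 * (∑ a ∈ range w, ν (p - a)) +
      ∑ a ∈ range w, ν (p - 1 - a) = g (p + 1) - 2 * g (p + 1 - w) + g (p + 1 - w - w) := by
    linarith
  rw [← this]; ring

theorem gs_avg_padded {t h : ℕ} (hh : 2 * 2 ^ t ≤ h) {g : ℤ → ℝ} (h0 : ∀ p, 0 ≤ g p)
    (hg : GS g 1 1) : GS (avg (2 ^ t) h g) (2 ^ t) (1 / 2 ^ t) := by
  have h1 := GS.sum (range (2 ^ t)) (fun (a : ℕ) p => (1 / ((2 ^ t : ℕ) : ℝ) ^ 2) *
      ∑ b ∈ range (2 ^ t), |g (p - a - b)|) (2 ^ t) (fun _ => (1 / ((2 ^ t : ℕ) : ℝ) ^ 2) * 1)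
    (fun a _ => ((hg.box t).shift a).smul _ (by positivity))
  refine (h1.congr fun p => ?_).mono (le_of_eq ?_)
  · rw [avg_padded hh]
    simp only [abs_of_nonneg (h0 _)]
  · simp only [Finset.sum_const, Finset.card_range, nsmul_eq_mul]
    push_cast; field_simp

variable {V : Type} [Fintype V] [DecidableEq V]

theorem levels (P : PM V) (D : ℝ) (hD0 : 0 ≤ D)
    (hD : ∀ v (r : ℕ), 1 ≤ r → ((P.ball v r).card : ℝ) ≤ 2 * r * D) (t : ℕ) :
    ∃ (W : V → ℝ) (μ : V → ℤ → ℝ), (∀ x, 0 ≤ W x) ∧
      (∀ A : Finset V, ∑ x ∈ A, W x ≤ 3 * (P.nb A (12 * 2 ^ t)).card) ∧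
      (∀ x p, 0 ≤ μ x p) ∧ (∀ x, GS (μ x) 1 1) ∧ (∀ x, GS (μ x) (2 ^ t) (2 * W x / 2 ^ t)) ∧
      (∀ x, GS (D2 1 (μ x)) 1 (16 * W x / 4 ^ t)) ∧
      ∀ (a : V → ℕ) (M : ℕ), ∃ f : V → ℕ, (∀ x, f x ≤ 2 * 2 ^ t) ∧
        (∀ x y, P.d x y ≤ 1 → f x ≤ f y + ∑ s ∈ range t, P.sl (2 ^ s) x +
          ∑ s ∈ range t, P.sl (2 ^ s) y) ∧
        ∀ p : ℕ, p ≤ M → ((Finset.univ.filter (fun x => a x + f x = p)).card : ℝ) ≤
          ∑ x, μ x ((p : ℤ) - a x) + t * (16848 * D) := by
  induction t with
  | zero =>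
    refine ⟨fun _ => 1, fun _ p => if p = 0 then 1 else 0, fun _ => zero_le_one, ?_, ?_,
      fun _ => gs_delta, fun _ => gs_delta.mono (by norm_num), fun _ => ?_, ?_⟩
    · intro A
      have : (A.card : ℝ) ≤ (P.nb A (12 * 2 ^ 0)).card := by
        exact_mod_cast Finset.card_le_card (P.subset_nb A _)
      simp only [Finset.sum_const, nsmul_eq_mul, mul_one]
      have h2 : (0:ℝ) ≤ A.card := by positivity
      linarith
    · intro x p; simp only; split_ifs <;> norm_num
    · refine ((gs_delta.four (-1) 0 1).congr fun p => ?_).mono (by norm_num)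
      simp [D2]
    · intro a M
      refine ⟨fun _ => 0, by simp, by simp, fun p _ => ?_⟩
      rw [Finset.card_filter]
      push_cast
      rw [zero_mul, add_zero]
      refine le_of_eq (Finset.sum_congr rfl fun x _ => ?_)
      by_cases h : a x = p
      · rw [if_pos (by omega), if_pos (by omega)]
      · rw [if_neg (by omega), if_neg (by omega)]
  | succ t ih =>
    obtain ⟨W, μ, hW0, hWA, hμ0, hμ1, hμw, hμ2, hround⟩ := ih
    obtain ⟨w, hw⟩ : ∃ w : ℕ, w = 2 ^ t := ⟨_, rfl⟩
    have hw0 : 0 < w := by rw [hw]; positivity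
    have hwR : (w : ℝ) = 2 ^ t := by rw [hw]; push_cast; rfl
    have hw4 : (4 : ℝ) ^ t = (w : ℝ) ^ 2 := by
      rw [hwR, ← pow_mul, mul_comm, pow_mul]; norm_num
    have hwp : (0:ℝ) < w := by exact_mod_cast hw0
    have hw2 : 2 ^ (t + 1) = 2 * w := by rw [hw, pow_succ']
    have hw2R : (2:ℝ) ^ (t + 1) = 2 * w := by rw [hwR, pow_succ']
    have hw4R : (4:ℝ) ^ (t + 1) = 4 * (w : ℝ) ^ 2 := by rw [← hw4, pow_succ']
    rw [← hw] at hWA hμw hround
    rw [← hwR] at hμw
    rw [hw4] at hμ2
    have hball : ∀ z, ∑ x ∈ P.ball z (6 * w), W x ≤ 3 * (P.ball z (18 * w)).card := by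
      intro z
      refine (hWA _).trans ?_
      have h1 := Finset.card_le_card (P.nb_ball z (6 * w) (12 * w))
      rw [show 6 * w + 12 * w = 18 * w by ring] at h1
      have h2 : ((P.nb (P.ball z (6 * w)) (12 * w)).card : ℝ) ≤ (P.ball z (18 * w)).card := by
        exact_mod_cast h1
      linarith
    obtain ⟨c, h, hc, hlip, hwt⟩ := P.carve w W hW0 hball Finset.univ
    rw [hw2, hw2R, hw4R]
    refine ⟨fun x => if h x < 2 * w then 4 * W x else 1, fun x => avg w (h x) (μ x), ?_, ?_, ?_,
      fun x => (hμ1 x).avg hw0 _, fun x => ?_, fun x => ?_, ?_⟩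
    · intro x
      have := hW0 x
      simp only; split_ifs <;> linarith
    · intro A
      have h1 := hwt A
      rw [Finset.inter_univ, Finset.univ_inter] at h1
      have h2 := hWA (P.nb A (12 * w))
      have h3 : ((P.nb (P.nb A (12 * w)) (12 * w)).card : ℝ) ≤ (P.nb A (12 * (2 * w))).card := by
        exact_mod_cast Finset.card_le_card ((P.nb_nb A _ _).trans (P.nb_mono A (by omega)))
      have h4 : ((P.nb A (7 * w) ∩ P.nb Finset.univ w).card : ℝ) ≤
          (P.nb A (12 * (2 * w))).card := by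
        exact_mod_cast Finset.card_le_card
          (Finset.inter_subset_left.trans (P.nb_mono A (by omega)))
      have h5 : (A.card : ℝ) ≤ (P.nb A (12 * (2 * w))).card := by
        exact_mod_cast Finset.card_le_card (P.subset_nb A _)
      have h6 : ∑ x ∈ A, (if h x < 2 * w then 4 * W x else 1) ≤
          4 * ∑ x ∈ A.filter (fun x => h x < 2 * w), W x + A.card := by
        rw [Finset.sum_ite, Finset.mul_sum]
        simp only [Finset.sum_const, nsmul_eq_mul, mul_one]
        have : (((A.filter (fun x => ¬ h x < 2 * w)).card : ℕ) : ℝ) ≤ A.card := by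
          exact_mod_cast Finset.card_filter_le _ _
        linarith
      linarith
    · intro x p
      exact Finset.sum_nonneg fun s _ => mul_nonneg (by positivity) (hμ0 _ _)
    · by_cases hx : h x < 2 * w
      · refine ((hμw x).avg hw0 _).coarsen.mono ?_
        simp only [hx, if_true]
        have := hW0 x
        rw [div_le_div_iff₀ hwp (by positivity)]; nlinarith
      · have h1 := gs_avg_padded (t := t) (h := h x) (by omega) (hμ0 x) (hμ1 x)
        rw [← hw, ← hwR] at h1
        refine h1.coarsen.mono (le_of_eq ?_)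
        simp only [hx, if_false]; field_simp
    · by_cases hx : h x < 2 * w
      · refine (((hμ2 x).avg hw0 (h x)).congr (d2_avg _ _ _)).mono (le_of_eq ?_)
        simp only [hx, if_true]; field_simp
      · refine ((((hμ1 x).four (-1) (w - 1) (2 * w - 1)).smul (1 / (w : ℝ) ^ 2)
          (by positivity)).congr (d2_avg_padded (by omega) _)).mono (le_of_eq ?_)
        simp only [hx, if_false]; field_simp; norm_num
    · intro a M
      have hcl : ∀ z, ∑ x ∈ Finset.univ.filter (fun x => c x = z), W x ≤ 108 * w * D := by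
        intro z
        have h1 : ∑ x ∈ Finset.univ.filter (fun x => c x = z), W x ≤
            ∑ x ∈ P.ball z (6 * w), W x := by
          apply Finset.sum_le_sum_of_subset_of_nonneg _ (fun x _ _ => hW0 x)
          intro x hx
          rw [P.mem_ball, ← (Finset.mem_filter.mp hx).2]
          exact hc x (Finset.mem_univ _)
        have h2 := hball z
        have h3 := hD z (18 * w) (by omega)
        push_cast at h3
        linarith
      obtain ⟨σ, hσ⟩ := round_sup (I := V) (S := Fin w × Fin w)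
        (fun z s p => ∑ x ∈ Finset.univ.filter (fun x => c x = z),
          μ x (p - (a x + (min ((s.1 : ℕ) + (s.2 : ℕ)) (h x) : ℕ))))
        (fun _ => 1 / (w : ℝ) ^ 2) (fun _ => by positivity) (wt_sum hw0) t M
        (216 * D) (1728 * D / w) (by positivity) (by positivity)
        (fun z s => by
          rw [← hw]
          refine (GS.sum _ _ w _ (fun x _ => (hμw x).shift _)).mono ?_
          have h1 : ∑ x ∈ Finset.univ.filter (fun x => c x = z), 2 * W x / w =
              2 * (∑ x ∈ Finset.univ.filter (fun x => c x = z), W x) / w := by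
            rw [Finset.mul_sum, Finset.sum_div]
          rw [h1, div_le_iff₀ hwp]
          linarith [hcl z])
        (fun z s => by
          refine ((GS.sum (Finset.univ.filter (fun x => c x = z)) _ 1 _ (fun x _ =>
            (hμ2 x).shift (a x + (min ((s.1 : ℕ) + (s.2 : ℕ)) (h x) : ℕ)))).congr ?_).mono ?_
          · intro p
            simp only [D2, Finset.mul_sum, ← Finset.sum_sub_distrib, ← Finset.sum_add_distrib]
            refine Finset.sum_congr rfl fun x _ => ?_
            rw [add_sub_right_comm, sub_right_comm p]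
          · have h1 : ∑ x ∈ Finset.univ.filter (fun x => c x = z), 16 * W x / (w : ℝ) ^ 2 =
                16 * (∑ x ∈ Finset.univ.filter (fun x => c x = z), W x) / (w : ℝ) ^ 2 := by
              rw [Finset.mul_sum, Finset.sum_div]
            rw [h1, div_le_div_iff₀ (by positivity) hwp]
            have := mul_le_mul_of_nonneg_right (hcl z) hwp.le
            nlinarith)
      let σ' : V → ℕ := fun z => ((σ z).1 : ℕ) + ((σ z).2 : ℕ)
      have hσ' : ∀ z, σ' z ≤ 2 * w := by
        intro z; have := (σ z).1.2; have := (σ z).2.2; simp only [σ']; omega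
      obtain ⟨f, hf1, hf2, hf3⟩ := hround (fun x => a x + min (σ' (c x)) (h x)) M
      refine ⟨fun x => min (σ' (c x)) (h x) + f x, fun x => ?_, fun x y hxy => ?_, fun p hp => ?_⟩
      · have := hσ' (c x); have := hf1 x; simp only; omega
      · have h1 := hlip σ' hσ' x (Finset.mem_univ _) y (Finset.mem_univ _) hxy
        have h2 := hf2 x y hxy
        rw [Finset.sum_range_succ, Finset.sum_range_succ, ← hw]
        simp only
        omega
      · have h1 := hf3 p hp
        have h2 := hσ p hp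
        simp only [← add_assoc]
        refine h1.trans ?_
        have h3 : ∑ z, ∑ x ∈ Finset.univ.filter (fun x => c x = z),
            μ x (p - (a x + (min (((σ z).1 : ℕ) + ((σ z).2 : ℕ)) (h x) : ℕ))) =
            ∑ x, μ x ((p : ℤ) - (a x + min (σ' (c x)) (h x) : ℕ)) := by
          symm
          rw [← Finset.sum_fiberwise Finset.univ c]
          refine Finset.sum_congr rfl fun z _ => Finset.sum_congr rfl fun x hx => ?_
          rw [(Finset.mem_filter.mp hx).2]
          simp only [σ', Nat.cast_add]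
        have h4 : ∑ z, ∑ s : Fin w × Fin w, 1 / (w : ℝ) ^ 2 *
            ∑ x ∈ Finset.univ.filter (fun x => c x = z),
              μ x (p - (a x + (min ((s.1 : ℕ) + (s.2 : ℕ)) (h x) : ℕ))) =
            ∑ x, avg w (h x) (μ x) ((p : ℤ) - a x) := by
          symm
          rw [← Finset.sum_fiberwise Finset.univ c]
          refine Finset.sum_congr rfl fun z _ => ?_
          simp only [Finset.mul_sum, avg]
          rw [Finset.sum_comm]
          refine Finset.sum_congr rfl fun x _ => Finset.sum_congr rfl fun s _ => ?_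
          rw [sub_sub]
        rw [h3, h4, ← hwR] at h2
        have h5 : 6 * (216 * D + 3 / 2 * w * (1728 * D / w)) = 16848 * D := by
          field_simp; ring
        rw [h5] at h2
        push_cast at h2 ⊢
        linarith

end Pool.Agent.Lib.MP_debb99_co.Up
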