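import Pool.Agent.Lib.MP_debb99_co.UpLevel

/- From the multiscale map to an ordering of small stretch. -/

set_option autoImplicit false
set_option linter.unusedSectionVars false
set_option linter.unusedVariables false

namespace Pool.Agent.Lib.MP_debb99_co.Up

open Finset

theorem tele_five (β : ℕ → ℕ) (hβ : ∀ s, β s ≤ β (s + 5)) (a : ℕ) (ha : ∀ s, β s ≤ a) (k : ℕ) :
    ∑ s ∈ range k, 6 * (3 + β (s + 5) - β s) ≤ 18 * k + 30 * a := by
  have : ∀ k, ∑ s ∈ range k, 6 * (3 + β (s + 5) - β s) ≤
      18 * k + 6 * (β k + β (k + 1) + β (k + 2) + β (k + 3) + β (k + 4)) := by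
    intro k
    induction k with
    | zero => simp
    | succ k ih =>
      rw [Finset.sum_range_succ]
      have := hβ k
      simp only [add_assoc, Nat.reduceAdd] at ih ⊢
      omega
  have h1 := this k
  have := ha k; have := ha (k + 1); have := ha (k + 2); have := ha (k + 3); have := ha (k + 4)
  omega

theorem exists_map {V : Type} [Fintype V] [DecidableEq V] (P : PM V) (D : ℝ) (hD0 : 0 ≤ D)
    (hD : ∀ v (r : ℕ), 1 ≤ r → ((P.ball v r).card : ℝ) ≤ 2 * r * D) :
    ∃ f : V → ℕ, (∀ x y, P.d x y ≤ 1 → f x ≤ f y + (96 * Nat.log 2 (Fintype.card V) + 36)) ∧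
      ∀ p : ℕ, ((Finset.univ.filter (fun x => f x = p)).card : ℝ) ≤
        6 + (Nat.log 2 (Fintype.card V) + 1 : ℕ) * (16848 * D) := by
  set a := Nat.log 2 (Fintype.card V) with ha
  obtain ⟨W, μ, hW0, hWA, hμ0, -, hμw, -, hround⟩ := levels P D hD0 hD (a + 1)
  obtain ⟨f, hf1, hf2, hf3⟩ := hround (fun _ => 0) (2 * 2 ^ (a + 1))
  have hsl : ∀ x, ∑ s ∈ range (a + 1), P.sl (2 ^ s) x ≤ 18 * (a + 1) + 30 * a := by
    intro x
    have := tele_five (fun s => Nat.log 2 (P.ball x (2 ^ s)).card)
      (fun s => Nat.log_mono_right (Finset.card_le_card (P.ball_subset (by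
        rw [P.refl, zero_add]; exact Nat.pow_le_pow_right (by norm_num) (by omega))))) a
      (fun s => Nat.log_mono_right (Finset.card_le_univ _)) (a + 1)
    refine le_trans (le_of_eq (Finset.sum_congr rfl fun s _ => ?_)) this
    rw [PM.sl, pow_add, mul_comm (2 ^ s)]
    norm_num
  refine ⟨f, fun x y hxy => ?_, fun p => ?_⟩
  · have := hf2 x y hxy
    have := hsl x
    have := hsl y
    omega
  · by_cases hp : p ≤ 2 * 2 ^ (a + 1)
    · have h1 := hf3 p hp
      simp only [zero_add] at h1
      refine h1.trans (add_le_add ?_ le_rfl)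
      have h2 : ∀ x, μ x ((p : ℤ) - (0 : ℕ)) ≤ 2 * W x / 2 ^ (a + 1) := by
        intro x
        have := hμw x ((p : ℤ) - (0 : ℕ)) {0}
        simp only [Finset.sum_singleton, mul_zero, add_zero] at this
        exact (le_abs_self _).trans this
      refine (Finset.sum_le_sum fun x _ => h2 x).trans ?_
      rw [← Finset.sum_div, ← Finset.mul_sum, div_le_iff₀ (by positivity)]
      have h3 := hWA Finset.univ
      have h4 : (P.nb Finset.univ (12 * 2 ^ (a + 1))).card ≤ 2 ^ (a + 1) :=
        (Finset.card_le_univ _).trans (Nat.lt_pow_succ_log_self (by norm_num) _).le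
      have h5 : ((P.nb Finset.univ (12 * 2 ^ (a + 1))).card : ℝ) ≤ 2 ^ (a + 1) := by
        exact_mod_cast h4
      linarith
    · have : Finset.univ.filter (fun x => f x = p) = ∅ := by
        apply Finset.filter_eq_empty_iff.mpr
        intro x _ hx
        have := hf1 x
        omega
      rw [this, Finset.card_empty, Nat.cast_zero]
      positivity

theorem exists_order {n : ℕ} (f : Fin n → ℕ) (F : ℝ)
    (hF : ∀ p : ℕ, ((Finset.univ.filter (fun x => f x = p)).card : ℝ) ≤ F) :
    ∃ π : Fin n ≃ Fin n, ∀ (L : ℕ) (u v : Fin n), f v ≤ f u + L → (π u : ℕ) ≤ π v →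
      (((π v : Fin n) : ℕ) : ℝ) - ((π u : Fin n) : ℕ) ≤ (L + 1) * F := by
  refine ⟨(Tuple.sort f).symm, fun L u v hL huv => ?_⟩
  set τ := Tuple.sort f with hτ
  have hm : Monotone (f ∘ τ) := Tuple.monotone_sort f
  have h1 : (Finset.Icc (τ.symm u) (τ.symm v)).card ≤
      ((Finset.Icc (f u) (f u + L)).biUnion
        (fun p => Finset.univ.filter (fun x => f x = p))).card := by
    apply Finset.card_le_card_of_injOn τ
    · intro i hi
      simp only [Finset.coe_Icc, Set.mem_Icc] at hi
      have h2 := hm hi.1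
      have h3 := hm hi.2
      simp only [Function.comp, Equiv.apply_symm_apply] at h2 h3
      simp only [Finset.coe_biUnion, Finset.coe_Icc, Set.mem_iUnion, Set.mem_Icc]
      exact ⟨f (τ i), ⟨h2, by omega⟩, by simp⟩
    · exact τ.injective.injOn
  have h2 : (((Finset.Icc (f u) (f u + L)).biUnion
        (fun p => Finset.univ.filter (fun x => f x = p))).card : ℝ) ≤ (L + 1) * F := by
    calc _ ≤ ((∑ p ∈ Finset.Icc (f u) (f u + L),
          (Finset.univ.filter (fun x => f x = p)).card : ℕ) : ℝ) := by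
          exact_mod_cast Finset.card_biUnion_le
      _ ≤ ∑ _p ∈ Finset.Icc (f u) (f u + L), F := by
          push_cast; exact Finset.sum_le_sum fun p _ => hF p
      _ = (L + 1) * F := by
          rw [Finset.sum_const, Nat.card_Icc, nsmul_eq_mul]
          have : f u + L + 1 - f u = L + 1 := by omega
          rw [this]; push_cast; ring
  rw [Fin.card_Icc] at h1
  have h3 : ((τ.symm v : Fin n) : ℕ) ≤ (τ.symm u : Fin n) +
      ((Finset.Icc (f u) (f u + L)).biUnion
        (fun p => Finset.univ.filter (fun x => f x = p))).card := by omega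
  have h4 : (((τ.symm v : Fin n) : ℕ) : ℝ) ≤ ((τ.symm u : Fin n) : ℕ) +
      (((Finset.Icc (f u) (f u + L)).biUnion
        (fun p => Finset.univ.filter (fun x => f x = p))).card : ℝ) := by exact_mod_cast h3
  linarith

/-- The graph distance truncated at the number of vertices. -/
noncomputable def trunc {n : ℕ} (G : SimpleGraph (Fin n)) : PM (Fin n) where
  d x y := (min (G.edist x y) n).toNat
  refl x := by simp
  symm x y := by rw [SimpleGraph.edist_comm]
  tri x y z := by
    have hne : ∀ e : ℕ∞, min e (n : ℕ∞) ≠ ⊤ := fun e =>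
      ne_top_of_le_ne_top (ENat.coe_ne_top n) (min_le_right _ _)
    have h1 : min (G.edist x z) (n : ℕ∞) ≤ min (G.edist x y) n + min (G.edist y z) n := by
      rcases le_total (G.edist x y) n with h | h
      · rcases le_total (G.edist y z) n with h' | h'
        · rw [min_eq_left h, min_eq_left h']
          exact (min_le_left _ _).trans SimpleGraph.edist_triangle
        · rw [min_eq_right h']
          exact (min_le_right _ _).trans le_add_self
      · rw [min_eq_right h]
        exact (min_le_right _ _).trans le_self_add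
    rw [← ENat.coe_toNat (hne (G.edist x z)), ← ENat.coe_toNat (hne (G.edist x y)),
      ← ENat.coe_toNat (hne (G.edist y z))] at h1
    exact_mod_cast h1

theorem trunc_le {n : ℕ} (G : SimpleGraph (Fin n)) (x y : Fin n) (r : ℕ) :
    (trunc G).d x y ≤ r ↔ G.edist x y ≤ r ∨ n ≤ r := by
  have hne : min (G.edist x y) (n : ℕ∞) ≠ ⊤ :=
    ne_top_of_le_ne_top (ENat.coe_ne_top n) (min_le_right _ _)
  have : (((trunc G).d x y : ℕ) : ℕ∞) = min (G.edist x y) n := ENat.coe_toNat hne
  rw [← Nat.cast_le (α := ℕ∞), this, min_le_iff, Nat.cast_le]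

theorem main (n : ℕ) (G : SimpleGraph (Fin n)) (D : ℝ)
    (hD : ∀ (v : Fin n) (r : ℕ), 1 ≤ r →
      ((({w | G.edist v w ≤ (r : ℕ∞)} : Set (Fin n)).ncard : ℕ) : ℝ) ≤ 2 * (r : ℝ) * D) :
    ∃ π : Fin n ≃ Fin n, ∀ u v : Fin n, G.Adj u v →
      |(((π u : Fin n) : ℕ) : ℝ) - (((π v : Fin n) : ℕ) : ℝ)| ≤
        20000000 * Real.log (n : ℝ) ^ 2 * D := by
  classical
  rcases lt_or_ge n 2 with hn | hn
  · refine ⟨Equiv.refl _, fun u v h => absurd (Fin.ext ?_) h.ne⟩
    have := u.2; have := v.2; omega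
  have hD1 : 1 / 2 ≤ D := by
    have h1 := hD ⟨0, by omega⟩ 1 le_rfl
    have h2 : 1 ≤ ({w | G.edist ⟨0, by omega⟩ w ≤ ((1 : ℕ) : ℕ∞)} : Set (Fin n)).ncard := by
      rw [Nat.one_le_iff_ne_zero]
      apply Set.ncard_ne_zero_of_mem (a := ⟨0, by omega⟩) _ (Set.toFinite _)
      simp
    have h3 : (1:ℝ) ≤ (({w | G.edist ⟨0, by omega⟩ w ≤ ((1 : ℕ) : ℕ∞)} : Set (Fin n)).ncard : ℕ) := by
      exact_mod_cast h2
    push_cast at h1 h3
    linarith
  obtain ⟨f, hf1, hf2⟩ := exists_map (trunc G) D (by linarith) (by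
    intro v r hr
    rcases lt_or_ge r n with hrn | hrn
    · refine le_trans (le_of_eq ?_) (hD v r hr)
      rw [← Set.ncard_coe_finset]
      congr 2
      ext w
      simp only [Finset.mem_coe, PM.mem_ball, trunc_le, Set.mem_setOf_eq]
      constructor
      · rintro (h | h)
        · exact h
        · omega
      · exact Or.inl
    · have h1 : ((trunc G).ball v r).card ≤ r :=
        (Finset.card_le_univ _).trans (by simpa using hrn)
      have h2 : (((trunc G).ball v r).card : ℝ) ≤ r := by exact_mod_cast h1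
      have h3 : (0:ℝ) ≤ r := by positivity
      nlinarith)
  rw [Fintype.card_fin] at hf1 hf2
  set a := Nat.log 2 n with ha
  obtain ⟨π, hπ⟩ := exists_order f _ hf2
  have ha1 : 1 ≤ a := Nat.log_pos (by norm_num) hn
  have ha1R : (1:ℝ) ≤ a := by exact_mod_cast ha1
  have ha2 : (a : ℝ) ≤ 2 * Real.log n := by
    have h1 : 2 ^ a ≤ n := Nat.pow_log_le_self 2 (by omega)
    have h2 : (2:ℝ) ^ a ≤ n := by exact_mod_cast h1
    have h3 := Real.log_le_log (by positivity) h2
    rw [Real.log_pow] at h3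
    have h4 := Real.log_two_gt_d9
    nlinarith
  have hb : (((96 * a + 36 : ℕ) : ℝ) + 1) * (6 + (a + 1 : ℕ) * (16848 * D)) ≤
      20000000 * Real.log (n : ℝ) ^ 2 * D := by
    push_cast
    have h1 : 96 * (a : ℝ) + 36 + 1 ≤ 133 * a := by linarith
    have h2 : 6 + ((a : ℝ) + 1) * (16848 * D) ≤ 33708 * a * D := by nlinarith
    have h3 : (a : ℝ) ^ 2 ≤ (2 * Real.log n) ^ 2 := by gcongr
    calc _ ≤ (133 * a) * (33708 * a * D) := by
          apply mul_le_mul h1 h2 _ (by positivity)
          have : 0 ≤ D := by linarith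
          positivity
      _ = 133 * 33708 * (a : ℝ) ^ 2 * D := by ring
      _ ≤ 133 * 33708 * (2 * Real.log n) ^ 2 * D := by
          have : 0 ≤ D := by linarith
          gcongr
      _ ≤ _ := by
          have : 0 ≤ D := by linarith
          have : 0 ≤ Real.log (n : ℝ) ^ 2 * D := by positivity
          nlinarith
  have key : ∀ u v : Fin n, G.Adj u v → (π u : ℕ) ≤ π v →
      (((π v : Fin n) : ℕ) : ℝ) - ((π u : Fin n) : ℕ) ≤ 20000000 * Real.log (n : ℝ) ^ 2 * D := by
    intro u v huv hle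
    refine (hπ _ u v (hf1 v u ?_) hle).trans hb
    rw [trunc_le]
    exact Or.inl (le_of_eq (by simpa using SimpleGraph.edist_eq_one_iff_adj.mpr huv.symm))
  refine ⟨π, fun u v huv => ?_⟩
  rcases le_total (π u : ℕ) (π v) with h | h
  · have h1 : (((π u : Fin n) : ℕ) : ℝ) ≤ ((π v : Fin n) : ℕ) := by exact_mod_cast h
    rw [abs_sub_comm, abs_of_nonneg (by linarith)]
    exact key u v huv h
  · have h1 : (((π v : Fin n) : ℕ) : ℝ) ≤ ((π u : Fin n) : ℕ) := by exact_mod_cast h
    rw [abs_of_nonneg (by linarith)]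
    exact key v u huv.symm h

end Pool.Agent.Lib.MP_debb99_co.Up
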